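import Mathlib
import Pool.Agent.Helper5.ZasDefs

/-!
The Clifford step in the bound for the derived length of finite soluble linear groups.
-/

namespace Pool.Agent.Helper63.Clifford

open Pool.Agent.Helper5.Zas
open scoped commutatorElement

section Weights

variable {F M ι κ : Type*} [Field F] [AddCommGroup M] [Module F M]

/-- Simultaneous eigenvectors with pairwise different systems of eigenvalues are independent. -/
theorem wt_sum_eq_zero (f : ι → (M →ₗ[F] M)) (χ : κ → ι → F) (hχ : Function.Injective χ)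
    (S : Finset κ) :
    ∀ v : κ → M, (∀ k ∈ S, ∀ i, f i (v k) = χ k i • v k) → ∑ k ∈ S, v k = 0 →
      ∀ k ∈ S, v k = 0 := by
  classical
  induction S using Finset.induction_on with
  | empty => simp
  | insert k₀ S hk₀ ih =>
    intro v hv hsum
    have key : ∀ k ∈ S, v k = 0 := by
      intro k₁ hk₁
      have hne : χ k₁ ≠ χ k₀ := by
        intro h
        have := hχ h
        subst this
        exact hk₀ hk₁
      obtain ⟨i, hi⟩ := Function.ne_iff.mp hne
      have h1 : ∑ k ∈ S, (χ k i - χ k₀ i) • v k = 0 := by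
        have h2 : f i (∑ k ∈ insert k₀ S, v k) - χ k₀ i • (∑ k ∈ insert k₀ S, v k) = 0 := by
          rw [hsum]; simp
        rw [map_sum, Finset.smul_sum, ← Finset.sum_sub_distrib, Finset.sum_insert hk₀,
          hv k₀ (Finset.mem_insert_self _ _) i, sub_self, zero_add] at h2
        rw [← h2]
        apply Finset.sum_congr rfl
        intro k hk
        rw [hv k (Finset.mem_insert_of_mem hk) i, sub_smul]
      have h3 := ih (fun k => (χ k i - χ k₀ i) • v k) (by
        intro k hk j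
        show f j ((χ k i - χ k₀ i) • v k) = χ k j • ((χ k i - χ k₀ i) • v k)
        rw [map_smul, hv k (Finset.mem_insert_of_mem hk) j, smul_comm]) h1 k₁ hk₁
      exact (smul_eq_zero.mp h3).resolve_left (sub_ne_zero.mpr hi)
    intro k hk
    rcases Finset.mem_insert.mp hk with rfl | hk'
    · rw [Finset.sum_insert hk₀, Finset.sum_eq_zero key, add_zero] at hsum
      exact hsum
    · exact key k hk'

theorem wt_iSupIndep (f : ι → (M →ₗ[F] M)) (χ : κ → ι → F) (hχ : Function.Injective χ)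
    (W : κ → Submodule F M) (hW : ∀ k, ∀ v ∈ W k, ∀ i, f i v = χ k i • v) : iSupIndep W := by
  rw [iSupIndep_iff_finsetSum_eq_zero_imp_eq_zero]
  intro S v hv hsum
  exact wt_sum_eq_zero f χ hχ S v (fun k hk => hW k (v k) (hv k hk)) hsum

theorem card_mul_le_finrank [Fintype κ] [Module.Finite F M] (W : κ → Submodule F M)
    (hW : iSupIndep W) (s : ℕ) (hs : ∀ k, Module.finrank F (W k) = s) :
    s * Fintype.card κ ≤ Module.finrank F M := by
  classical
  let T : (∀ k, W k) →ₗ[F] M := ∑ k, (W k).subtype ∘ₗ LinearMap.proj k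
  have hT : ∀ x, T x = ∑ k, (x k : M) := by
    intro x
    simp [T]
  have hinj : Function.Injective T := by
    rw [injective_iff_map_eq_zero]
    intro x hx
    rw [hT] at hx
    rw [iSupIndep_iff_finsetSum_eq_zero_imp_eq_zero] at hW
    have := hW Finset.univ (fun k => (x k : M)) (fun k _ => (x k).2) hx
    funext k
    exact Subtype.ext (this k (Finset.mem_univ k))
  have := LinearMap.finrank_le_finrank_of_injective hinj
  rw [Module.finrank_pi_fintype] at this
  simp only [hs, Finset.sum_const, Finset.card_univ, smul_eq_mul] at this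
  rw [mul_comm]
  exact this

end Weights

section Groups

/-- The derived series of a subgroup containing a term of the derived series. -/
theorem derivedSeries_add_le {G : Type*} [Group G] (H : Subgroup G) (m : ℕ)
    (hm : derivedSeries G m ≤ H) (n : ℕ) :
    derivedSeries G (m + n) ≤ (derivedSeries H n).map H.subtype := by
  induction n with
  | zero =>
    intro x hx
    exact ⟨⟨x, hm hx⟩, by simp, rfl⟩
  | succ n ih =>
    rw [← add_assoc, derivedSeries_succ, derivedSeries_succ, Subgroup.map_commutator]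
    exact Subgroup.commutator_mono ih ih

end Groups

section CommonEigenvector

variable {F V G : Type*} [Field F] [IsAlgClosed F] [AddCommGroup V] [Module F V]
  [Module.Finite F V] [Group G]

/-- A commuting family of operators has a common eigenvector. -/
theorem exists_common_eigenvector [Nontrivial V] (ρ : G →* (V →ₗ[F] V)) (A : Subgroup G)
    (hA : ∀ a ∈ A, ∀ b ∈ A, a * b = b * a) :
    ∃ (v : V) (χ : A → F), v ≠ 0 ∧ ∀ a : A, ρ a v = χ a • v := by
  classical
  let P : Set (Submodule F V) := {W | W ≠ ⊥ ∧ ∀ a ∈ A, ∀ w ∈ W, ρ a w ∈ W}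
  have hP : P.Nonempty := ⟨⊤, by
    refine ⟨?_, fun a _ w _ => Submodule.mem_top⟩
    exact top_ne_bot⟩
  obtain ⟨W, hWP, hmin⟩ := WellFounded.has_min (wellFounded_lt (α := Submodule F V)) P hP
  have hscal : ∀ a ∈ A, ∃ c : F, ∀ w ∈ W, ρ a w = c • w := by
    intro a ha
    have hWa : ∀ w ∈ W, ρ a w ∈ W := hWP.2 a ha
    have : Nontrivial W := Submodule.nontrivial_iff_ne_bot.mpr hWP.1
    obtain ⟨c, hc⟩ := Module.End.exists_eigenvalue ((ρ a).restrict hWa)
    obtain ⟨w, hw⟩ := hc.exists_hasEigenvector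
    refine ⟨c, ?_⟩
    let W' : Submodule F V := W ⊓ LinearMap.ker (ρ a - c • LinearMap.id)
    have hmem : ∀ x, x ∈ W' ↔ x ∈ W ∧ ρ a x = c • x := by
      intro x
      simp only [W', Submodule.mem_inf, LinearMap.mem_ker, LinearMap.sub_apply,
        LinearMap.smul_apply, LinearMap.id_apply, sub_eq_zero]
    have hW'P : W' ∈ P := by
      constructor
      · intro hbot
        have hw1 : (w : V) ∈ W' := by
          rw [hmem]
          refine ⟨w.2, ?_⟩
          have := hw.apply_eq_smul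
          have h2 := congrArg Subtype.val this
          simpa using h2
        rw [hbot, Submodule.mem_bot] at hw1
        exact hw.2 (Subtype.ext hw1)
      · intro b hb x hx
        rw [hmem] at hx ⊢
        refine ⟨hWP.2 b hb x hx.1, ?_⟩
        have : ρ a (ρ b x) = ρ b (ρ a x) := by
          rw [← Module.End.mul_apply, ← Module.End.mul_apply, ← map_mul, ← map_mul, hA a ha b hb]
        rw [this, hx.2, map_smul]
    have hle : W' ≤ W := inf_le_left
    have heq : W' = W := by
      by_contra hne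
      exact hmin W' hW'P (lt_of_le_of_ne hle hne)
    intro x hx
    rw [← heq, hmem] at hx
    exact hx.2
  obtain ⟨v, hv, hv0⟩ := (Submodule.ne_bot_iff W).mp hWP.1
  choose c hc using hscal
  exact ⟨v, fun a => c a a.2, hv0, fun a => hc a a.2 v hv⟩

end CommonEigenvector


section CaseA

variable {F V G : Type} [Field F] [AddCommGroup V] [Module F V] [Group G]

theorem rho_mul (ρ : G →* (V →ₗ[F] V)) (g h : G) (v : V) : ρ (g * h) v = ρ g (ρ h v) := by
  rw [map_mul]; rfl

theorem rho_inv_rho (ρ : G →* (V →ₗ[F] V)) (g : G) (v : V) : ρ g⁻¹ (ρ g v) = v := by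
  rw [← rho_mul, inv_mul_cancel, map_one]; rfl

theorem rho_rho_inv (ρ : G →* (V →ₗ[F] V)) (g : G) (v : V) : ρ g (ρ g⁻¹ v) = v := by
  rw [← rho_mul, mul_inv_cancel, map_one]; rfl

theorem rho_injective (ρ : G →* (V →ₗ[F] V)) (g : G) : Function.Injective (ρ g) :=
  Function.LeftInverse.injective (rho_inv_rho ρ g)

theorem map_map_rho (ρ : G →* (V →ₗ[F] V)) (g h : G) (W : Submodule F V) :
    (W.map (ρ h)).map (ρ g) = W.map (ρ (g * h)) := by
  rw [← Submodule.map_comp, map_mul]
  rfl

theorem map_one_rho (ρ : G →* (V →ₗ[F] V)) (W : Submodule F V) :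
    W.map (ρ 1) = W := by
  rw [map_one]
  exact Submodule.map_id W

/-- The translates of a subspace. -/
def OrbT (ρ : G →* (V →ₗ[F] V)) (W₀ : Submodule F V) : Type :=
  {W : Submodule F V // ∃ g : G, W = W₀.map (ρ g)}

instance (ρ : G →* (V →ₗ[F] V)) (W₀ : Submodule F V) : MulAction G (OrbT ρ W₀) where
  smul g W := ⟨W.1.map (ρ g), by
    obtain ⟨h, hh⟩ := W.2
    exact ⟨g * h, by rw [hh, map_map_rho]⟩⟩
  one_smul W := Subtype.ext (map_one_rho ρ W.1)
  mul_smul g h W := Subtype.ext (map_map_rho ρ g h W.1).symm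

theorem orbT_smul_val (ρ : G →* (V →ₗ[F] V)) (W₀ : Submodule F V) (g : G) (W : OrbT ρ W₀) :
    (g • W).1 = W.1.map (ρ g) := rfl

instance (ρ : G →* (V →ₗ[F] V)) (W₀ : Submodule F V) [Finite G] : Finite (OrbT ρ W₀) :=
  Finite.of_surjective (fun g : G => (⟨W₀.map (ρ g), g, rfl⟩ : OrbT ρ W₀)) (by
    rintro ⟨W, g, rfl⟩
    exact ⟨g, rfl⟩)

/-- The restriction of the action to a subspace, for the subgroup stabilising it. -/
def restrictRep (ρ : G →* (V →ₗ[F] V)) (H : Subgroup G) (W : Submodule F V)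
    (hW : ∀ g ∈ H, ∀ w ∈ W, ρ g w ∈ W) : H →* (W →ₗ[F] W) where
  toFun g := (ρ g).restrict (hW g g.2)
  map_one' := by
    ext w
    simp
  map_mul' g h := by
    ext w
    simp

theorem restrictRep_apply (ρ : G →* (V →ₗ[F] V)) (H : Subgroup G) (W : Submodule F V)
    (hW : ∀ g ∈ H, ∀ w ∈ W, ρ g w ∈ W) (g : H) (w : W) :
    ((restrictRep ρ H W hW g w : W) : V) = ρ g w := rfl

theorem caseA [IsAlgClosed F] [Module.Finite F V] [Finite G] [Group.IsSolvable G]
    {D k : ℕ} (h g : ℕ → ℕ)
    (hirr : ∀ D' < D, IrrBound D' (h D')) (hperm : ∀ t ≤ D, PermBound t (g t))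
    (hk3 : ∀ s t : ℕ, 1 ≤ s → 2 ≤ t → s * t ≤ D → h s + g t ≤ k)
    (ρ : G →* (V →ₗ[F] V))
    (hρirr : ∀ W : Submodule F V, (∀ g : G, ∀ w ∈ W, ρ g w ∈ W) → W = ⊥ ∨ W = ⊤)
    (hD : Module.finrank F V ≤ D) (A : Subgroup G) [A.Normal]
    (hA : ∀ a ∈ A, ∀ b ∈ A, a * b = b * a)
    (hns : ∃ a ∈ A, ∀ c : F, ∃ v : V, ρ a v ≠ c • v) :
    ∀ x ∈ derivedSeries G k, ρ x = 1 := by
  classical
  have hVnt : Nontrivial V := by
    obtain ⟨a, ha, hc⟩ := hns
    obtain ⟨v, hv⟩ := hc 0
    exact ⟨⟨_, _, hv⟩⟩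
  obtain ⟨v₀, χ₀, hv₀, hχ₀⟩ := exists_common_eigenvector ρ A hA
  -- the weight space
  let wt : (A → F) → Submodule F V := fun χ =>
    { carrier := {v | ∀ a : A, ρ a v = χ a • v}
      add_mem' := by
        intro x y hx hy a
        simp only [Set.mem_ofPred_eq] at hx hy
        rw [map_add, hx, hy, smul_add]
      zero_mem' := by intro a; simp
      smul_mem' := by
        intro c x hx a
        simp only [Set.mem_ofPred_eq] at hx
        rw [map_smul, hx, smul_comm] }
  have hwt : ∀ χ v, v ∈ wt χ ↔ ∀ a : A, ρ a v = χ a • v := fun χ v => Iff.rfl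
  -- conjugation of characters
  let cj : G → (A → F) → (A → F) := fun x χ a =>
    χ ⟨x⁻¹ * a * x, by
      have := Subgroup.Normal.conj_mem (inferInstance : A.Normal) a.1 a.2 x⁻¹
      simpa using this⟩
  have hcj : ∀ x χ, (wt χ).map (ρ x) ≤ wt (cj x χ) := by
    intro x χ
    rintro _ ⟨v, hv, rfl⟩
    rw [hwt]
    intro a
    have h1 : ρ (a : G) (ρ x v) = ρ x (ρ (x⁻¹ * a * x) v) := by
      rw [← rho_mul, ← rho_mul]
      congr 2
      group
    rw [h1]
    have h2 := (hwt χ v).mp hv ⟨x⁻¹ * a * x, by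
      have := Subgroup.Normal.conj_mem (inferInstance : A.Normal) a.1 a.2 x⁻¹
      simpa using this⟩
    rw [h2, map_smul]
  have hcj2 : ∀ x χ, cj x⁻¹ (cj x χ) = χ := by
    intro x χ
    funext a
    show χ _ = χ a
    congr 1
    apply Subtype.ext
    show x⁻¹ * ((x⁻¹)⁻¹ * a * x⁻¹) * x = a
    group
  have hcj3 : ∀ x χ, (wt χ).map (ρ x) = wt (cj x χ) := by
    intro x χ
    refine le_antisymm (hcj x χ) ?_
    intro v hv
    refine ⟨ρ x⁻¹ v, ?_, rho_rho_inv ρ x v⟩
    have := hcj x⁻¹ (cj x χ) ⟨v, hv, rfl⟩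
    rw [hcj2] at this
    exact this
  let W₀ : Submodule F V := wt χ₀
  have hW₀ : W₀ ≠ ⊥ := by
    rw [Submodule.ne_bot_iff]
    exact ⟨v₀, hχ₀, hv₀⟩
  -- every translate is a weight space
  let Ω : Type := OrbT ρ W₀
  let _ : MulAction G Ω := inferInstanceAs (MulAction G (OrbT ρ W₀))
  have hΩfin : Finite Ω := inferInstanceAs (Finite (OrbT ρ W₀))
  let _ : Fintype Ω := Fintype.ofFinite Ω
  have hsmul : ∀ (x : G) (W : Ω), (x • W).1 = W.1.map (ρ x) := fun x W => rfl
  have hΩ : ∀ W : Ω, ∃ χ : A → F, W.1 = wt χ := by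
    rintro ⟨W, x, rfl⟩
    exact ⟨cj x χ₀, hcj3 x χ₀⟩
  choose ch hch using hΩ
  have hchinj : Function.Injective ch := by
    intro W W' hWW
    apply Subtype.ext
    rw [hch W, hch W', hWW]
  have hindep : iSupIndep (fun W : Ω => W.1) := by
    refine wt_iSupIndep (fun a : A => ρ a) ch hchinj _ ?_
    intro W v hv a
    have hv' : v ∈ W.1 := hv
    rw [hch W] at hv'
    exact hv' a
  let w₀ : Ω := ⟨W₀, 1, (map_one_rho ρ W₀).symm⟩
  let s : ℕ := Module.finrank F W₀
  have hs : ∀ W : Ω, Module.finrank F W.1 = s := by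
    rintro ⟨W, x, rfl⟩
    exact (Submodule.equivMapOfInjective (ρ x) (rho_injective ρ x) W₀).finrank_eq.symm
  have hs1 : 1 ≤ s := by
    rw [Nat.one_le_iff_ne_zero]
    intro h0
    exact hW₀ (Submodule.finrank_eq_zero.mp h0)
  have hsup : (⨆ W : Ω, W.1) = ⊤ := by
    refine (hρirr _ ?_).resolve_left ?_
    · intro x w hw
      have : (⨆ W : Ω, W.1).map (ρ x) ≤ ⨆ W : Ω, W.1 := by
        rw [Submodule.map_iSup]
        exact iSup_le fun W => le_iSup (fun W : Ω => W.1) (x • W)
      exact this ⟨w, hw, rfl⟩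
    · intro hbot
      apply hW₀
      rw [eq_bot_iff, ← hbot]
      exact le_iSup (fun W : Ω => W.1) w₀
  let t : ℕ := Nat.card Ω
  have ht2 : 2 ≤ t := by
    by_contra hlt
    have hle : Nat.card Ω ≤ 1 := by
      have : ¬ 2 ≤ Nat.card Ω := hlt
      omega
    have hsub : Subsingleton Ω := Finite.card_le_one_iff_subsingleton.mp hle
    obtain ⟨a, ha, hc⟩ := hns
    obtain ⟨v, hv⟩ := hc (χ₀ ⟨a, ha⟩)
    apply hv
    have hW₀top : W₀ = ⊤ := by
      rw [← hsup]
      apply le_antisymm
      · exact le_iSup (fun W : Ω => W.1) w₀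
      · refine iSup_le fun W => ?_
        rw [Subsingleton.elim W w₀]
    have : v ∈ W₀ := by rw [hW₀top]; exact Submodule.mem_top
    exact this ⟨a, ha⟩
  have hst : s * t ≤ D := by
    refine le_trans ?_ hD
    have := card_mul_le_finrank (F := F) (M := V) (fun W : Ω => W.1) hindep s hs
    rwa [← Nat.card_eq_fintype_card] at this
  have htD : t ≤ D := le_trans (Nat.le_mul_of_pos_left t hs1) hst
  have hsD : s < D := by
    have : s * 2 ≤ s * t := Nat.mul_le_mul_left s ht2
    omega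
  have hfix := hperm t htD G Ω le_rfl
  have hk : g t + h s ≤ k := by
    rw [add_comm]
    exact hk3 s t hs1 ht2 hst
  -- on every weight space the derived subgroup acts trivially
  have hmain : ∀ x ∈ derivedSeries G k, ∀ W : Ω, ∀ w ∈ W.1, ρ x w = w := by
    intro x hx W
    let H : Subgroup G := MulAction.stabilizer G W
    have hH : ∀ y ∈ H, ∀ w ∈ W.1, ρ y w ∈ W.1 := by
      intro y hy w hw
      have h1 : y • W = W := hy
      have h2 : W.1.map (ρ y) = W.1 := by rw [← hsmul, h1]
      rw [← h2]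
      exact ⟨w, hw, rfl⟩
    have hCH : derivedSeries G (g t) ≤ H := fun y hy => hfix y hy W
    have hirrW : ∀ U : Submodule F W.1,
        (∀ y : H, ∀ u ∈ U, restrictRep ρ H W.1 hH y u ∈ U) → U = ⊥ ∨ U = ⊤ := by
      intro U hU
      let U' : Submodule F V := U.map W.1.subtype
      have hU'W : U' ≤ W.1 := Submodule.map_subtype_le _ _
      let X : Submodule F V := ⨆ (W' : Ω) (_ : W' ≠ W), W'.1
      have hdis : Disjoint W.1 X := hindep W
      let T : Submodule F V := ⨆ y : G, U'.map (ρ y)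
      have hU'T : U' ≤ T := by
        have := le_iSup (fun y : G => U'.map (ρ y)) 1
        rwa [map_one_rho] at this
      have hTinv : ∀ y : G, ∀ v ∈ T, ρ y v ∈ T := by
        intro y v hv
        have : T.map (ρ y) ≤ T := by
          show (⨆ y : G, U'.map (ρ y)).map (ρ y) ≤ _
          rw [Submodule.map_iSup]
          refine iSup_le fun z => ?_
          rw [map_map_rho]
          exact le_iSup (fun y : G => U'.map (ρ y)) (y * z)
        exact this ⟨v, hv, rfl⟩
      rcases hρirr T hTinv with hT | hT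
      · left
        have hU'bot : U' = ⊥ := by
          rw [eq_bot_iff, ← hT]
          exact hU'T
        rw [Submodule.eq_bot_iff] at hU'bot ⊢
        intro u hu
        have := hU'bot (u : V) ⟨u, hu, rfl⟩
        exact Subtype.ext this
      · right
        have hTle : T ≤ U' ⊔ X := by
          refine iSup_le fun y => ?_
          by_cases hy : y • W = W
          · refine le_trans ?_ le_sup_left
            rintro _ ⟨_, ⟨u, hu, rfl⟩, rfl⟩
            exact ⟨_, hU ⟨y, hy⟩ u hu, rfl⟩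
          · refine le_trans ?_ le_sup_right
            have h1 : U'.map (ρ y) ≤ (y • W).1 := by
              rw [hsmul]
              exact Submodule.map_mono hU'W
            refine le_trans h1 ?_
            exact le_iSup₂_of_le (y • W) hy le_rfl
        rw [eq_top_iff]
        intro w _
        have h1 : (w : V) ∈ U' ⊔ X := hTle (by rw [hT]; exact Submodule.mem_top)
        obtain ⟨u, hu, z, hz, huz⟩ := Submodule.mem_sup.mp h1
        have hz2 : z ∈ W.1 := by
          have : z = (w : V) - u := by rw [← huz]; abel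
          rw [this]
          exact W.1.sub_mem w.2 (hU'W hu)
        have hz0 : z = 0 := by
          have := Submodule.disjoint_def.mp hdis z hz2 hz
          exact this
        rw [hz0, add_zero] at huz
        obtain ⟨u', hu', rfl⟩ := hu
        have : u' = w := Subtype.ext huz
        rw [← this]
        exact hu'
    have h3 := hirr s hsD F W.1 H (restrictRep ρ H W.1 hH) hirrW (le_of_eq (hs W))
    have hx2 : x ∈ derivedSeries G (g t + h s) := derivedSeries_antitone G hk hx
    obtain ⟨y, hy, rfl⟩ := derivedSeries_add_le H (g t) hCH (h s) hx2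
    intro w hw
    have h4 := h3 y hy
    have h5 : ((restrictRep ρ H W.1 hH y ⟨w, hw⟩ : W.1) : V) = w := by
      rw [h4]; rfl
    rw [restrictRep_apply] at h5
    exact h5
  intro x hx
  have hker : (⨆ W : Ω, W.1) ≤ LinearMap.ker (ρ x - 1) := by
    refine iSup_le fun W => ?_
    intro w hw
    rw [LinearMap.mem_ker, LinearMap.sub_apply, hmain x hx W w hw]
    simp
  rw [hsup] at hker
  ext v
  have := hker (Submodule.mem_top : v ∈ (⊤ : Submodule F V))
  rw [LinearMap.mem_ker, LinearMap.sub_apply, sub_eq_zero] at this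
  exact this

end CaseA

section CaseB

variable {F V G : Type} [Field F] [AddCommGroup V] [Module F V] [Group G]

/-- The derived series of a subgroup, inside the ambient group. -/
def dser (C : Subgroup G) : ℕ → Subgroup G
  | 0 => C
  | n + 1 => ⁅dser C n, dser C n⁆

/-- In a soluble group a normal subgroup not inside `Z` contains a normal subgroup which is
abelian modulo `Z` but not inside `Z`. -/
theorem exists_bad_step [Group.IsSolvable G] (C Z : Subgroup G) [hC : C.Normal] (h : ¬ C ≤ Z) :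
    ∃ B₂ : Subgroup G, B₂.Normal ∧ B₂ ≤ C ∧ ¬ B₂ ≤ Z ∧ ⁅B₂, B₂⁆ ≤ Z := by
  classical
  let ds : ℕ → Subgroup G := dser C
  have ds0 : ds 0 = C := rfl
  have dss : ∀ n, ds (n + 1) = ⁅ds n, ds n⁆ := fun n => rfl
  have hn : ∀ n, (ds n).Normal := by
    intro n
    induction n with
    | zero => exact hC
    | succ n ih =>
      have h1 : (⁅ds n, ds n⁆ : Subgroup G).Normal :=
        @Subgroup.commutator_normal G _ (ds n) (ds n) ih ih
      exact h1
  have hle : ∀ n, ds n ≤ derivedSeries G n := by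
    intro n
    induction n with
    | zero => exact le_top
    | succ n ih =>
      rw [dss, derivedSeries_succ]
      exact Subgroup.commutator_mono ih ih
  have hleC : ∀ n, ds n ≤ C := by
    intro n
    induction n with
    | zero => exact le_rfl
    | succ n ih =>
      rw [dss]
      exact le_trans (Subgroup.commutator_le_self (ds n)) ih
  have hex : ∃ n, ds n ≤ Z := by
    obtain ⟨n, hn⟩ := Group.IsSolvable.solvable (G := G)
    exact ⟨n, (hle n).trans (by rw [hn]; exact bot_le)⟩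
  have h1 := Nat.find_spec hex
  have h2 : Nat.find hex ≠ 0 := by
    intro h0
    rw [h0] at h1
    exact h h1
  obtain ⟨m, hm⟩ := Nat.exists_eq_succ_of_ne_zero h2
  refine ⟨ds m, hn m, hleC m, ?_, ?_⟩
  · exact Nat.find_min hex (by omega)
  · rw [hm] at h1
    exact h1

theorem commutator_sup_le (B B₂ Z : Subgroup G) [B.Normal] [B₂.Normal] (h1 : ⁅B, B⁆ ≤ Z)
    (h2 : ⁅B₂, B₂⁆ ≤ Z) (h3 : ∀ b ∈ B, ∀ c ∈ B₂, b * c = c * b) : ⁅B ⊔ B₂, B ⊔ B₂⁆ ≤ Z := by
  rw [Subgroup.commutator_le]
  intro x hx y hy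
  rw [Subgroup.mem_sup_of_normal_right] at hx hy
  obtain ⟨b, hb, c, hc, rfl⟩ := hx
  obtain ⟨b', hb', c', hc', rfl⟩ := hy
  have e1 : c * b' = b' * c := (h3 b' hb' c hc).symm
  have e2 : c' * b⁻¹ = b⁻¹ * c' := (h3 b⁻¹ (B.inv_mem hb) c' hc').symm
  have e3 : c⁻¹ * b⁻¹ = b⁻¹ * c⁻¹ := (h3 b⁻¹ (B.inv_mem hb) c⁻¹ (B₂.inv_mem hc)).symm
  have e4 : c⁻¹ * b'⁻¹ = b'⁻¹ * c⁻¹ := (h3 b'⁻¹ (B.inv_mem hb') c⁻¹ (B₂.inv_mem hc)).symm
  have e5 : c'⁻¹ * b'⁻¹ = b'⁻¹ * c'⁻¹ := (h3 b'⁻¹ (B.inv_mem hb') c'⁻¹ (B₂.inv_mem hc')).symm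
  have e6 : c * b⁻¹ = b⁻¹ * c := (h3 b⁻¹ (B.inv_mem hb) c hc).symm
  have e7 : c * b'⁻¹ = b'⁻¹ * c := (h3 b'⁻¹ (B.inv_mem hb') c hc).symm
  have e8 : c' * b'⁻¹ = b'⁻¹ * c' := (h3 b'⁻¹ (B.inv_mem hb') c' hc').symm
  have key : ⁅b * c, b' * c'⁆ = ⁅b, b'⁆ * ⁅c, c'⁆ := by
    simp only [commutatorElement_def, mul_inv_rev, mul_assoc]
    congr 1
    calc c * (b' * (c' * (c⁻¹ * (b⁻¹ * (c'⁻¹ * b'⁻¹)))))
        = (c * b') * (c' * (c⁻¹ * (b⁻¹ * (c'⁻¹ * b'⁻¹)))) := by simp only [mul_assoc]
      _ = b' * (c * (c' * ((c⁻¹ * b⁻¹) * (c'⁻¹ * b'⁻¹)))) := by rw [e1]; simp only [mul_assoc]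
      _ = b' * (c * ((c' * b⁻¹) * (c⁻¹ * (b'⁻¹ * c'⁻¹)))) := by
        rw [e3, e5]; simp only [mul_assoc]
      _ = b' * ((c * b⁻¹) * (c' * ((c⁻¹ * b'⁻¹) * c'⁻¹))) := by
        rw [e2]; simp only [mul_assoc]
      _ = b' * (b⁻¹ * (c * ((c' * b'⁻¹) * (c⁻¹ * c'⁻¹)))) := by
        rw [e6, e4]; simp only [mul_assoc]
      _ = b' * (b⁻¹ * ((c * b'⁻¹) * (c' * (c⁻¹ * c'⁻¹)))) := by
        rw [e8]; simp only [mul_assoc]
      _ = b' * (b⁻¹ * (b'⁻¹ * (c * (c' * (c⁻¹ * c'⁻¹))))) := by
        rw [e7]; simp only [mul_assoc]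
  rw [key]
  exact Z.mul_mem (h1 (Subgroup.commutator_mem_commutator hb hb'))
    (h2 (Subgroup.commutator_mem_commutator hc hc'))

theorem caseB [Module.Finite F V] [Nontrivial V] [Finite G] [Group.IsSolvable G]
    {D k a : ℕ} (haut : AutBound (D ^ 2) a) (hk2 : a + 2 ≤ k)
    (ρ : G →* (V →ₗ[F] V)) (hρ : Function.Injective ρ)
    (hD : Module.finrank F V ≤ D)
    (hsc : ∀ A : Subgroup G, A.Normal → (∀ a ∈ A, ∀ b ∈ A, a * b = b * a) →
      ∀ a ∈ A, ∃ c : F, ∀ v : V, ρ a v = c • v) :
    derivedSeries G k = ⊥ := by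
  classical
  -- the centre consists of the scalars
  have hZsc : ∀ z ∈ Subgroup.center G, ∃ c : F, ∀ v : V, ρ z v = c • v :=
    hsc (Subgroup.center G) inferInstance (fun a ha b _ =>
      ((Subgroup.mem_center_iff.mp ha) b).symm)
  have hscZ : ∀ x : G, (∃ c : F, ∀ v : V, ρ x v = c • v) → x ∈ Subgroup.center G := by
    rintro x ⟨c, hc⟩
    rw [Subgroup.mem_center_iff]
    intro y
    apply hρ
    ext v
    rw [rho_mul, rho_mul, hc, hc, map_smul]
  have habZ : ∀ A : Subgroup G, A.Normal → (∀ a ∈ A, ∀ b ∈ A, a * b = b * a) →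
      A ≤ Subgroup.center G := fun A h1 h2 a ha => hscZ a (hsc A h1 h2 a ha)
  let P : Set (Subgroup G) :=
    {B | B.Normal ∧ Subgroup.center G ≤ B ∧ ⁅B, B⁆ ≤ Subgroup.center G}
  have hPne : P.Nonempty := ⟨Subgroup.center G, inferInstance, le_rfl,
    Subgroup.commutator_le_left _ _⟩
  obtain ⟨B, hBP, hBmax⟩ := WellFounded.has_min (wellFounded_gt (α := Subgroup G)) P hPne
  obtain ⟨hBn, hZB, hBB⟩ := hBP
  have hBC : ∀ x ∈ B, (∀ b ∈ B, b * x = x * b) → x ∈ Subgroup.center G := by
    intro x hx hc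
    have hn : (B ⊓ Subgroup.centralizer (B : Set G)).Normal := Subgroup.normal_inf_normal _ _
    refine habZ (B ⊓ Subgroup.centralizer (B : Set G)) hn ?_ ⟨hx, ?_⟩
    · intro y hy z hz
      exact Subgroup.mem_centralizer_iff.mp hz.2 y hy.1
    · exact Subgroup.mem_centralizer_iff.mpr hc
  -- the centraliser of `B` is central
  have hCB : Subgroup.centralizer (B : Set G) ≤ Subgroup.center G := by
    by_contra hnot
    obtain ⟨B₂, hB₂n, hB₂C, hB₂Z, hB₂c⟩ := exists_bad_step _ _ hnot
    have hsup : B ⊔ B₂ ∈ P := by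
      refine ⟨Subgroup.sup_normal _ _, hZB.trans le_sup_left, ?_⟩
      refine commutator_sup_le B B₂ _ hBB hB₂c ?_
      intro b hb c hc
      exact Subgroup.mem_centralizer_iff.mp (hB₂C hc) b hb
    have hle : B₂ ≤ B := by
      by_contra hle
      refine hBmax _ hsup ?_
      exact lt_of_le_of_ne le_sup_left (fun h => hle (by rw [h]; exact le_sup_right))
    apply hB₂Z
    intro x hx
    exact hBC x (hle hx) (Subgroup.mem_centralizer_iff.mp (hB₂C hx))
  have hCmem : ∀ x : G, (∀ b ∈ B, b * x = x * b) → x ∈ Subgroup.center G := fun x hx =>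
    hCB (Subgroup.mem_centralizer_iff.mpr hx)
  -- the quotient `B/Z`
  let q : G →* G ⧸ Subgroup.center G := QuotientGroup.mk' (Subgroup.center G)
  let E : Subgroup (G ⧸ Subgroup.center G) := B.map q
  have hEn : E.Normal := hBn.map q (QuotientGroup.mk'_surjective _)
  have hqeq : ∀ x y : G, q x = q y ↔ x * y⁻¹ ∈ Subgroup.center G := by
    intro x y
    rw [← mul_inv_eq_one, ← map_inv, ← map_mul]
    exact QuotientGroup.eq_one_iff (x * y⁻¹)
  have hEcomm : ∀ x y : E, x * y = y * x := by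
    rintro ⟨_, x, hx, rfl⟩ ⟨_, y, hy, rfl⟩
    apply Subtype.ext
    show q x * q y = q y * q x
    rw [← map_mul, ← map_mul, hqeq]
    have := hBB (Subgroup.commutator_mem_commutator hx hy)
    rw [commutatorElement_def] at this
    rw [mul_inv_rev, ← mul_assoc]
    exact this
  let _ : CommGroup E := { (inferInstance : Group E) with mul_comm := hEcomm }
  have hEfin : Finite E := inferInstance
  let _ : Fintype E := Fintype.ofFinite E
  -- its order
  have hcard : Nat.card E ≤ D ^ 2 := by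
    have hb : ∀ e : E, ∃ b ∈ B, q b = e.1 := fun e => e.2
    choose b hbB hbq using hb
    have hsc2 : ∀ (e : E) (y : B), ∃ c : F, ∀ v : V, ρ ⁅(y : G), b e⁆ v = c • v := fun e y =>
      hZsc _ (hBB (Subgroup.commutator_mem_commutator y.2 (hbB e)))
    choose χ hχ using hsc2
    let f : B → ((V →ₗ[F] V) →ₗ[F] (V →ₗ[F] V)) := fun y =>
      LinearMap.mulLeft F (ρ y) ∘ₗ LinearMap.mulRight F (ρ (y : G)⁻¹)
    have hf : ∀ (e : E) (y : B), f y (ρ (b e)) = χ e y • ρ (b e) := by
      intro e y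
      ext v
      show ρ y (ρ (b e) (ρ (y : G)⁻¹ v)) = χ e y • ρ (b e) v
      rw [← hχ e y, ← rho_mul, ← rho_mul, ← rho_mul, commutatorElement_def]
      congr 2
      group
    have hχinj : Function.Injective χ := by
      intro e e' hee
      apply Subtype.ext
      rw [← hbq e, ← hbq e', hqeq]
      apply hBC _ (B.mul_mem (hbB e) (B.inv_mem (hbB e')))
      intro y hy
      have h1 : ⁅y, b e⁆ = ⁅y, b e'⁆ := by
        apply hρ
        ext v
        rw [hχ e ⟨y, hy⟩, hχ e' ⟨y, hy⟩, hee]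
      have h2 : ⁅y, b e⁆ ∈ Subgroup.center G :=
        hBB (Subgroup.commutator_mem_commutator hy (hbB e))
      have h3 : y * b e = ⁅y, b e⁆ * b e * y := by
        rw [commutatorElement_def]; group
      have h5 : ∀ w : G, ⁅y, b e⁆ * w = w * ⁅y, b e⁆ := fun w =>
        ((Subgroup.mem_center_iff.mp h2) w).symm
      have h6 : y * b e' = ⁅y, b e⁆ * b e' * y := by
        rw [h1, commutatorElement_def]; group
      generalize ⁅y, b e⁆ = z at h1 h2 h3 h5 h6
      have h7 : y * (b e')⁻¹ = z⁻¹ * (b e')⁻¹ * y := by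
        have e1 : z⁻¹ * (b e')⁻¹ = (z * b e')⁻¹ := by rw [h5, mul_inv_rev]
        rw [e1, eq_inv_mul_iff_mul_eq, ← mul_assoc, ← h6, mul_inv_cancel_right]
      calc y * (b e * (b e')⁻¹) = z * b e * (y * (b e')⁻¹) := by
            rw [← mul_assoc, h3, mul_assoc]
        _ = (z * b e * z⁻¹) * (b e')⁻¹ * y := by rw [h7]; simp only [mul_assoc]
        _ = b e * (b e')⁻¹ * y := by rw [h5, mul_inv_cancel_right]
    have hli : LinearIndependent F (fun e : E => ρ (b e)) := by
      rw [linearIndependent_iff']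
      intro s g hg e he
      have h1 := wt_sum_eq_zero f χ hχinj s (fun e => g e • ρ (b e)) (by
        intro e _ y
        show f y (g e • ρ (b e)) = χ e y • (g e • ρ (b e))
        rw [map_smul, hf, smul_comm]) hg e he
      refine (smul_eq_zero.mp h1).resolve_right ?_
      intro h0
      obtain ⟨v, hv⟩ := exists_ne (0 : V)
      apply hv
      have h2 := rho_inv_rho ρ (b e) v
      rw [h0] at h2
      rw [← h2]
      simp
    have h2 := hli.fintype_card_le_finrank
    rw [Module.finrank_linearMap] at h2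
    rw [Nat.card_eq_fintype_card]
    calc Fintype.card E ≤ Module.finrank F V * Module.finrank F V := h2
      _ ≤ D * D := Nat.mul_le_mul hD hD
      _ = D ^ 2 := (sq D).symm
  -- the action by conjugation
  let φ : G →* MulAut E := (MulAut.conjNormal (H := E)).comp q
  have hφ := haut E G φ hcard
  set C₁ : Subgroup G := derivedSeries G a with hC₁
  have h1 : ⁅C₁, B⁆ ≤ Subgroup.center G := by
    rw [Subgroup.commutator_le]
    intro c hc b hb
    have h2 := hφ c hc
    have h3 : ((φ c ⟨q b, b, hb, rfl⟩ : E) : G ⧸ Subgroup.center G) = q b := by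
      rw [h2]; rfl
    have h4 : q c * q b * (q c)⁻¹ = q b :=
      (MulAut.conjNormal_apply (q c) (⟨q b, b, hb, rfl⟩ : E)).symm.trans h3
    rw [← map_mul, ← map_inv, ← map_mul, hqeq] at h4
    rw [commutatorElement_def]
    exact h4
  have hZc : ⁅Subgroup.center G, C₁⁆ = ⊥ := by
    rw [eq_bot_iff, Subgroup.commutator_le]
    intro z hz c _
    rw [Subgroup.mem_bot, commutatorElement_eq_one_iff_mul_comm]
    exact ((Subgroup.mem_center_iff.mp hz) c).symm
  have h5 : ⁅⁅C₁, B⁆, C₁⁆ = ⊥ := by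
    rw [eq_bot_iff, ← hZc]
    exact Subgroup.commutator_mono h1 le_rfl
  have h6 : ⁅⁅B, C₁⁆, C₁⁆ = ⊥ := by
    rw [Subgroup.commutator_comm B C₁]
    exact h5
  have h7 : ⁅⁅C₁, C₁⁆, B⁆ = ⊥ := Subgroup.commutator_commutator_eq_bot_of_rotate h5 h6
  have h8 : ⁅C₁, C₁⁆ ≤ Subgroup.center G :=
    (Subgroup.commutator_eq_bot_iff_le_centralizer.mp h7).trans hCB
  have h9 : derivedSeries G (a + 2) = ⊥ := by
    show ⁅⁅C₁, C₁⁆, ⁅C₁, C₁⁆⁆ = ⊥
    rw [eq_bot_iff]
    refine (Subgroup.commutator_mono h8 h8).trans ?_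
    rw [Subgroup.commutator_le]
    intro z hz c _
    rw [Subgroup.mem_bot, commutatorElement_eq_one_iff_mul_comm]
    exact ((Subgroup.mem_center_iff.mp hz) c).symm
  rw [eq_bot_iff, ← h9]
  exact derivedSeries_antitone G hk2

end CaseB

/-- The Clifford step. -/
theorem irrBound_step {D k a : ℕ} (h g : ℕ → ℕ) (hirr : ∀ D' < D, IrrBound D' (h D'))
    (hperm : ∀ t ≤ D, PermBound t (g t)) (haut : AutBound (D ^ 2) a) (hk1 : 1 ≤ k)
    (hk2 : a + 2 ≤ k)
    (hk3 : ∀ s t : ℕ, 1 ≤ s → 2 ≤ t → s * t ≤ D → h s + g t ≤ k)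
    (hmono : Monotone h) : IrrBound D k := by
  classical
  intro F _ _ V _ _ _ G _ _ _ ρ hρirr hd
  rcases subsingleton_or_nontrivial V with hV | hV
  · intro x _
    ext v
    exact Subsingleton.elim _ _
  · let H : Subgroup (V →ₗ[F] V)ˣ := ρ.toHomUnits.range
    have hsurj : Function.Surjective ρ.toHomUnits.rangeRestrict :=
      MonoidHom.rangeRestrict_surjective _
    have hfin : Finite H := Finite.of_surjective _ hsurj
    have hsol : Group.IsSolvable H := Group.isSolvable_of_surjective hsurj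
    let τ : H →* (V →ₗ[F] V) := (Units.coeHom (V →ₗ[F] V)).comp H.subtype
    have hτ : Function.Injective τ := fun x y hxy => Subtype.ext (Units.ext hxy)
    have hτρ : ∀ x : G, τ (ρ.toHomUnits.rangeRestrict x) = ρ x := fun x => rfl
    have hτirr : ∀ W : Submodule F V, (∀ y : H, ∀ w ∈ W, τ y w ∈ W) → W = ⊥ ∨ W = ⊤ := by
      intro W hW
      refine hρirr W ?_
      intro x w hw
      rw [← hτρ]
      exact hW _ w hw
    have key : ∀ y ∈ derivedSeries H k, τ y = 1 := by
      by_cases hex : ∃ A : Subgroup H, A.Normal ∧ (∀ a ∈ A, ∀ b ∈ A, a * b = b * a) ∧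
          ∃ a ∈ A, ∀ c : F, ∃ v : V, τ a v ≠ c • v
      · obtain ⟨A, hAn, hA, hns⟩ := hex
        exact caseA h g hirr hperm hk3 τ hτirr hd A hA hns
      · have hbot : derivedSeries H k = ⊥ := by
          refine caseB haut hk2 τ hτ hd ?_
          intro A hAn hA a ha
          by_contra hne
          apply hex
          refine ⟨A, hAn, hA, a, ha, ?_⟩
          intro c
          by_contra hall
          apply hne
          refine ⟨c, ?_⟩
          intro v
          by_contra hv
          exact hall ⟨v, hv⟩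
        intro y hy
        rw [hbot, Subgroup.mem_bot] at hy
        rw [hy, map_one]
    intro x hx
    rw [← hτρ]
    exact key _ (map_derivedSeries_le_derivedSeries (ρ.toHomUnits.rangeRestrict) k ⟨x, hx, rfl⟩)

end Pool.Agent.Helper63.Clifford
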