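import Mathlib
import Pool.Agent.Helper49.HasseDavenport

set_option autoImplicit false
set_option linter.unusedSectionVars false

namespace CardAffine67

open Finset

/-- symmetry of Jacobi sums in the three characters with product one -/
theorem jacobi_sym {k : Type} [Field k] [Fintype k] (α β : MulChar k ℂ) :
    jacobiSum α β = α (-1) * jacobiSum α (α * β)⁻¹ := by
  classical
  have h1 : jacobiSum α β = ∑ x ∈ univ \ {(1 : k)}, α x * β (1 - x) := by
    rw [jacobiSum]
    symm
    apply Finset.sum_subset (subset_univ _)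
    intro x _ hx
    have : x = 1 := by simpa using hx
    rw [this, sub_self, MulChar.map_zero, mul_zero]
  have h2 : jacobiSum α (α * β)⁻¹ = ∑ x ∈ univ \ {(1 : k)}, α x * (α * β)⁻¹ (1 - x) := by
    rw [jacobiSum]
    symm
    apply Finset.sum_subset (subset_univ _)
    intro x _ hx
    have : x = 1 := by simpa using hx
    rw [this, sub_self, MulChar.map_zero, mul_zero]
  rw [h1, h2, Finset.mul_sum]
  refine Finset.sum_nbij' (fun x => x / (x - 1)) (fun x => x / (x - 1)) ?_ ?_ ?_ ?_ ?_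
  · intro x hx
    simp only [mem_sdiff, mem_univ, mem_singleton, true_and] at hx ⊢
    intro h
    rw [div_eq_one_iff_eq (sub_ne_zero.2 hx)] at h
    have : (1 : k) = 0 := by linear_combination h
    exact one_ne_zero this
  · intro x hx
    simp only [mem_sdiff, mem_univ, mem_singleton, true_and] at hx ⊢
    intro h
    rw [div_eq_one_iff_eq (sub_ne_zero.2 hx)] at h
    have : (1 : k) = 0 := by linear_combination h
    exact one_ne_zero this
  · intro x hx
    simp only [mem_sdiff, mem_univ, mem_singleton, true_and] at hx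
    have := sub_ne_zero.2 hx
    have e : x / (x - 1) - 1 = 1 / (x - 1) := by field_simp; ring
    simp only [e]
    field_simp
  · intro x hx
    simp only [mem_sdiff, mem_univ, mem_singleton, true_and] at hx
    have := sub_ne_zero.2 hx
    have e : x / (x - 1) - 1 = 1 / (x - 1) := by field_simp; ring
    simp only [e]
    field_simp
  · intro x hx
    simp only [mem_sdiff, mem_univ, mem_singleton, true_and] at hx
    have h0 := sub_ne_zero.2 hx
    have h1 : 1 - x ≠ 0 := sub_ne_zero.2 (Ne.symm hx)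
    have e : 1 - x / (x - 1) = (1 - x)⁻¹ := by
      field_simp
      ring
    have e2 : x / (x - 1) = (-1) * x * (1 - x)⁻¹ := by
      field_simp
      ring
    rw [e, e2, MulChar.inv_apply', inv_inv, map_mul, map_mul, MulChar.mul_apply]
    have e3 : α (1 - x)⁻¹ * α (1 - x) = 1 := by
      rw [← map_mul, inv_mul_cancel₀ h1, map_one]
    have e4 : α (-1) * α (-1) = 1 := by
      rw [← map_mul]; simp
    linear_combination (-(α x * β (1 - x)) : ℂ) * e4 * (α (1 - x)⁻¹ * α (1 - x)) - (α x * β (1 - x)) * e3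

/-- Frobenius invariance of Jacobi sums -/
theorem jacobi_frob {k : Type} [Field k] [Fintype k] {p : ℕ} (hp : p.Prime) [CharP k p]
    (α β : MulChar k ℂ) : jacobiSum (α ^ p) (β ^ p) = jacobiSum α β := by
  have : Fact p.Prime := ⟨hp⟩
  have hb : Function.Bijective (fun x : k => x ^ p) :=
    (Finite.injective_iff_bijective).1 (frobenius_inj k p)
  rw [jacobiSum, jacobiSum, ← (Equiv.ofBijective _ hb).sum_comp (fun x => α x * β (1 - x))]
  refine Finset.sum_congr rfl fun x _ => ?_
  simp only [Equiv.ofBijective_apply]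
  rw [MulChar.pow_apply' _ hp.ne_zero, MulChar.pow_apply' _ hp.ne_zero, map_pow]
  congr 1
  rw [← map_pow, sub_pow_expChar, one_pow]

def chk (P i : ℕ) : Bool :=
  (List.range 33).any fun a => (List.range 3).any fun b => P ^ a * 29 ^ b % 67 == i

theorem check0 : ∀ P < 67, P ^ 33 % 67 = 1 → P ^ 3 % 67 ≠ 1 → ∀ i < 67, i ^ 33 % 67 = 1 →
    chk P i = true := by
  decide +kernel

theorem check {P : ℕ} (hP : P < 67) (h1 : P ^ 33 % 67 = 1) (h2 : P ^ 3 % 67 ≠ 1) {i : ℕ}
    (hi : i < 67) (h3 : i ^ 33 % 67 = 1) : ∃ a b : ℕ, P ^ a * 29 ^ b % 67 = i := by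
  have := check0 P hP h1 h2 i hi h3
  simp only [chk, List.any_eq_true, beq_iff_eq] at this
  obtain ⟨a, _, b, _, h⟩ := this
  exact ⟨a, b, h⟩

theorem check2 : ∀ i < 67, 0 < i → i ^ 33 % 67 ≠ 1 → (66 * i % 67) ^ 33 % 67 = 1 := by
  decide +kernel


section values

variable {k : Type} [Field k] [Fintype k] (χ : MulChar k ℂ)

/-- the Jacobi sums in question -/
noncomputable def f (i : ℕ) : ℂ := jacobiSum (χ ^ i) ((χ ^ i) ^ 29)

theorem f_mod (hχ : orderOf χ = 67) (i : ℕ) : f χ (i % 67) = f χ i := by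
  unfold f
  rw [← hχ, pow_mod_orderOf]

theorem f_p {p : ℕ} (hp : p.Prime) [CharP k p] (i : ℕ) : f χ (p * i) = f χ i := by
  unfold f
  have e : χ ^ (p * i) = (χ ^ i) ^ p := by rw [mul_comm, pow_mul]
  have e2 : ((χ ^ i) ^ p) ^ 29 = ((χ ^ i) ^ 29) ^ p := pow_right_comm _ _ _
  rw [e, e2, jacobi_frob hp]

theorem f_29 (hχ : orderOf χ = 67) (i : ℕ) : f χ (29 * i) = f χ i := by
  unfold f
  have e : χ ^ (29 * i) = (χ ^ i) ^ 29 := by rw [mul_comm, pow_mul]
  have h67 : (χ ^ i) ^ 67 = 1 := by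
    rw [← pow_mul, mul_comm, pow_mul, ← hχ, pow_orderOf_eq_one, one_pow]
  rw [e]
  set α := χ ^ i with hα
  rw [jacobiSum_comm α (α ^ 29), jacobi_sym (α ^ 29) α]
  have e1 : (α ^ 29) (-1) = 1 := by
    have h2 : ((α ^ 29) (-1)) ^ 2 = 1 := by
      rw [← map_pow]; simp
    have h3 : ((α ^ 29) (-1)) ^ 67 = 1 := by
      rw [← MulChar.pow_apply' _ (by norm_num), ← pow_mul, mul_comm, pow_mul, h67, one_pow,
        MulChar.one_apply (by simp)]
    have h4 : (67 : ℕ) = 2 * 33 + 1 := by norm_num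
    rw [h4, pow_succ, pow_mul, h2, one_pow, one_mul] at h3
    exact h3
  have e2 : (α ^ 29 * α)⁻¹ = (α ^ 29) ^ 29 := by
    rw [inv_eq_iff_mul_eq_one]
    have : α ^ 29 * α * (α ^ 29) ^ 29 = (α ^ 67) ^ 13 := by
      clear_value α
      rw [← pow_mul, ← pow_succ, ← pow_add, ← pow_mul]
    rw [this, h67, one_pow]
  rw [e1, e2, one_mul]

theorem f_pow {p : ℕ} (hp : p.Prime) [CharP k p] (hχ : orderOf χ = 67) (a b i : ℕ) :
    f χ (p ^ a * 29 ^ b * i) = f χ i := by
  induction a with
  | zero =>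
    induction b with
    | zero => simp
    | succ b ih =>
      rw [pow_succ, show p ^ 0 * (29 ^ b * 29) * i = 29 * (p ^ 0 * 29 ^ b * i) by ring,
        f_29 χ hχ, ih]
  | succ a ih =>
    rw [pow_succ, show p ^ a * p * 29 ^ b * i = p * (p ^ a * 29 ^ b * i) by ring,
        f_p χ hp, ih]

theorem f_value {p : ℕ} (hp : p.Prime) [CharP k p] (hχ : orderOf χ = 67)
    (h33 : (p : ZMod 67) ^ 33 = 1) (h3 : (p : ZMod 67) ^ 3 ≠ 1) {i : ℕ} (hi : i < 67)
    (hi0 : 0 < i) : f χ i = if i ^ 33 % 67 = 1 then f χ 1 else f χ 66 := by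
  have h33' : (p % 67) ^ 33 % 67 = 1 := by
    rw [← Nat.pow_mod]
    have : ((p ^ 33 : ℕ) : ZMod 67) = (1 : ℕ) := by push_cast; simpa using h33
    exact (ZMod.natCast_eq_natCast_iff' _ _ _).1 this
  have h3' : (p % 67) ^ 3 % 67 ≠ 1 := by
    rw [← Nat.pow_mod]
    intro h
    apply h3
    have : ((p ^ 3 : ℕ) : ZMod 67) = (1 : ℕ) := (ZMod.natCast_eq_natCast_iff' _ _ _).2 h
    push_cast at this
    simpa using this
  have key : ∀ j < 67, j ^ 33 % 67 = 1 → ∃ a b : ℕ, p ^ a * 29 ^ b % 67 = j := by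
    intro j hj hj1
    obtain ⟨a, b, h⟩ := check (Nat.mod_lt p (by norm_num)) h33' h3' hj hj1
    refine ⟨a, b, ?_⟩
    rw [← h, Nat.mul_mod, Nat.pow_mod p a, ← Nat.mul_mod]
  split_ifs with h
  · obtain ⟨a, b, hab⟩ := key i hi h
    rw [← hab, f_mod χ hχ, ← mul_one (p ^ a * 29 ^ b), f_pow χ hp hχ]
  · obtain ⟨a, b, hab⟩ := key (66 * i % 67) (Nat.mod_lt _ (by norm_num)) (check2 i hi hi0 h)
    have e : i = (p ^ a * 29 ^ b * 66) % 67 := by
      rw [Nat.mul_mod, hab]
      have : 66 * i % 67 * (66 % 67) % 67 = 66 * i * 66 % 67 := by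
        rw [← Nat.mul_mod]
      omega
    rw [e, f_mod χ hχ, f_pow χ hp hχ]

theorem sum_f {p : ℕ} (hp : p.Prime) [CharP k p] (hχ : orderOf χ = 67)
    (h33 : (p : ZMod 67) ^ 33 = 1) (h3 : (p : ZMod 67) ^ 3 ≠ 1) (g : ℂ → ℂ) :
    ∑ i ∈ range 66, g (f χ (i + 1)) = 33 * (g (f χ 1) + g (f χ 66)) := by
  have h : ∀ i ∈ range 66, g (f χ (i + 1)) =
      if (i + 1) ^ 33 % 67 = 1 then g (f χ 1) else g (f χ 66) := by
    intro i hi
    rw [mem_range] at hi
    rw [f_value χ hp hχ h33 h3 (i := i + 1) (by omega) (by omega)]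
    split_ifs <;> rfl
  rw [sum_congr rfl h, sum_ite, sum_const, sum_const]
  have c1 : ((range 66).filter (fun i => (i + 1) ^ 33 % 67 = 1)).card = 33 := by decide +kernel
  have c2 : ((range 66).filter (fun i => ¬ (i + 1) ^ 33 % 67 = 1)).card = 33 := by decide +kernel
  rw [c1, c2]
  simp only [nsmul_eq_mul]
  push_cast
  ring

end values


section count

variable {k E : Type} [Field k] [Fintype k] [Field E] [Fintype E] [Algebra k E]
  (χ : MulChar k ℂ)

theorem exists_gen (hχ : orderOf χ = 67) : ∃ g : Eˣ, (∀ x : Eˣ, ∃ n : ℕ, g ^ n = x) ∧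
    IsPrimitiveRoot (χ (Algebra.norm k (g : E))) 67 := by
  obtain ⟨g, hg⟩ := IsCyclic.exists_monoid_generator (α := Eˣ)
  refine ⟨g, fun x => ?_, ?_⟩
  · obtain ⟨n, hn⟩ := hg x
    exact ⟨n, hn⟩
  · have h67 : χ ^ 67 = 1 := by rw [← hχ, pow_orderOf_eq_one]
    have hu : IsUnit (Algebra.norm k (g : E)) := g.isUnit.map (Algebra.norm k)
    have hz : (χ (Algebra.norm k (g : E))) ^ 67 = 1 := by
      rw [← MulChar.pow_apply' _ (by norm_num), h67, MulChar.one_apply hu]
    have h1 : χ (Algebra.norm k (g : E)) ≠ 1 := by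
      intro h
      have : χ = 1 := by
        ext u
        obtain ⟨x, hx⟩ := FiniteField.norm_surjective k E (u : k)
        have hx0 : x ≠ 0 := by
          rintro rfl
          rw [Algebra.norm_zero] at hx
          exact u.ne_zero hx.symm
        obtain ⟨n, hn⟩ := hg (Units.mk0 x hx0)
        have hn' : (g : E) ^ n = x := by
          have := congrArg Units.val hn
          simpa using this
        rw [← hx, ← hn', map_pow, map_pow, h, one_pow, MulChar.one_apply (hu.pow n)]
      rw [this, orderOf_one] at hχ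
      norm_num at hχ
    exact (IsPrimitiveRoot.iff_def _ _).2 ⟨hz, fun l hl => by
      rcases (Nat.dvd_prime (by norm_num : Nat.Prime 67)).1 (orderOf_dvd_of_pow_eq_one hz) with h | h
      · exact absurd (orderOf_eq_one_iff.1 h) h1
      · rw [← h]; exact orderOf_dvd_of_pow_eq_one hl⟩

theorem isPower_iff (hχ : orderOf χ = 67) {a : E} (ha : a ≠ 0) :
    (∃ y : E, y ^ 67 = a) ↔ χ (Algebra.norm k a) = 1 := by
  obtain ⟨g, hg, hz⟩ := exists_gen (E := E) χ hχ
  have h67 : χ ^ 67 = 1 := by rw [← hχ, pow_orderOf_eq_one]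
  constructor
  · rintro ⟨y, rfl⟩
    have hy : y ≠ 0 := by
      rintro rfl
      simp at ha
    have hu : IsUnit (Algebra.norm k y) := (Units.mk0 y hy).isUnit.map (Algebra.norm k)
    rw [map_pow, map_pow, ← MulChar.pow_apply' _ (by norm_num), h67, MulChar.one_apply hu]
  · intro h
    obtain ⟨n, hn⟩ := hg (Units.mk0 a ha)
    have hn' : (g : E) ^ n = a := by
      have := congrArg Units.val hn
      simpa using this
    rw [← hn', map_pow, map_pow] at h
    obtain ⟨m, rfl⟩ := hz.dvd_of_pow_eq_one _ h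
    exact ⟨(g : E) ^ m, by rw [← pow_mul, mul_comm m, hn']⟩

theorem exists_primitive (hχ : orderOf χ = 67) : ∃ ζ : E, IsPrimitiveRoot ζ 67 := by
  obtain ⟨g, hg, hz⟩ := exists_gen (E := E) χ hχ
  have h1 : (g : E) ^ orderOf g = 1 := by
    rw [← Units.val_pow_eq_pow_val, pow_orderOf_eq_one]; rfl
  have h2 : 67 ∣ orderOf g := by
    apply hz.dvd_of_pow_eq_one
    rw [← map_pow, ← map_pow, h1, map_one, map_one]
  obtain ⟨m, hm⟩ := h2
  have h3 : IsPrimitiveRoot (g : E) (orderOf g) := by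
    rw [← orderOf_units]
    exact IsPrimitiveRoot.orderOf _
  exact ⟨_, h3.pow (orderOf_pos g) (by rw [hm, mul_comm])⟩

theorem card_roots [DecidableEq E] (hχ : orderOf χ = 67) {a : E} (ha : a ≠ 0) :
    ((univ.filter fun y : E => y ^ 67 = a).card : ℂ) =
      ∑ i ∈ range 67, (χ (Algebra.norm k a)) ^ i := by
  obtain ⟨ζ, hζ⟩ := exists_primitive (E := E) χ hχ
  have hu : IsUnit (Algebra.norm k a) := (Units.mk0 a ha).isUnit.map (Algebra.norm k)
  have h67 : χ ^ 67 = 1 := by rw [← hχ, pow_orderOf_eq_one]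
  have hz : (χ (Algebra.norm k a)) ^ 67 = 1 := by
    rw [← MulChar.pow_apply' _ (by norm_num), h67, MulChar.one_apply hu]
  have e : (univ.filter fun y : E => y ^ 67 = a) = Polynomial.nthRootsFinset 67 a := by
    ext y
    simp [Polynomial.mem_nthRootsFinset (by norm_num : 0 < 67)]
  by_cases h : ∃ y : E, y ^ 67 = a
  · have h1 := (isPower_iff χ hχ ha).1 h
    rw [h1]
    simp only [one_pow, sum_const, card_range, nsmul_eq_mul, mul_one]
    have e3 : (Polynomial.nthRootsFinset 67 a).card = 67 := by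
      rw [Polynomial.nthRootsFinset_def,
        Multiset.toFinset_card_of_nodup (hζ.nthRoots_nodup ha), hζ.card_nthRoots, if_pos h]
    rw [e, e3]
  · have h1 : χ (Algebra.norm k a) ≠ 1 := fun h' => h ((isPower_iff χ hχ ha).2 h')
    have h2 : (univ.filter fun y : E => y ^ 67 = a) = ∅ := by
      rw [Finset.filter_eq_empty_iff]
      intro y _ hy
      exact h ⟨y, hy⟩
    rw [h2, card_empty, geom_sum_eq h1, hz]
    simp

end count

end CardAffine67

open CardAffine67 Finset in
theorem card_affine {p : ℕ} (hp : p.Prime) (h33 : (p : ZMod 67) ^ 33 = 1)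
    (h3 : (p : ZMod 67) ^ 3 ≠ 1) {k E : Type} [Field k] [Fintype k]
    (hk : Fintype.card k = p ^ 33) [Field E] [Fintype E] [Algebra k E]
    (χ : MulChar k ℂ) (hχ : orderOf χ = 67) :
    (Nat.card {P : E × E // P.1 ≠ 0 ∧ 1 - P.1 ≠ 0 ∧ P.2 ^ 67 = P.1 * (1 - P.1) ^ 29} : ℂ)
      = (Fintype.card E : ℂ) - 2 -
        33 * ((-jacobiSum χ (χ ^ 29)) ^ (Module.finrank k E)
          + (-jacobiSum χ⁻¹ (χ⁻¹ ^ 29)) ^ (Module.finrank k E)) := by
  classical
  have hchar : CharP k p := by
    obtain ⟨n, hq, hc⟩ := FiniteField.card k (ringChar k)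
    have : ringChar k = p := by
      have h : ringChar k ∣ p ^ 33 := by
        rw [← hk, hc]
        exact dvd_pow_self _ n.ne_zero
      exact (Nat.prime_dvd_prime_iff_eq hq hp).1 (hq.dvd_of_dvd_pow h)
    rw [← this]
    exact ringChar.charP k
  have h67 : χ ^ 67 = 1 := by rw [← hχ, pow_orderOf_eq_one]
  have hm : 0 < Module.finrank k E := Module.finrank_pos
  -- the count as a double sum
  have h1 : (Nat.card {P : E × E // P.1 ≠ 0 ∧ 1 - P.1 ≠ 0 ∧ P.2 ^ 67 = P.1 * (1 - P.1) ^ 29} : ℂ)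
      = ∑ t : E, ∑ i ∈ range 67, (χ ^ i) (Algebra.norm k t) *
          ((χ ^ i) ^ 29) (Algebra.norm k (1 - t)) := by
    rw [Nat.card_eq_fintype_card, Fintype.card_subtype, Finset.card_filter,
      Fintype.sum_prod_type]
    push_cast
    refine Finset.sum_congr rfl fun t _ => ?_
    by_cases ht : t = 0
    · subst ht
      simp [MulChar.map_zero]
    by_cases ht1 : 1 - t = 0
    · have ht2 : t = 1 := by linear_combination -ht1
      subst ht2
      simp [MulChar.map_zero]
    have ha : t * (1 - t) ^ 29 ≠ 0 := mul_ne_zero ht (pow_ne_zero _ ht1)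
    have hut : IsUnit (Algebra.norm k t) := (Units.mk0 t ht).isUnit.map (Algebra.norm k)
    have hut1 : IsUnit (Algebra.norm k (1 - t)) :=
      (Units.mk0 _ ht1).isUnit.map (Algebra.norm k)
    have e1 : ∑ y : E, (if (t, y).1 ≠ 0 ∧ 1 - (t, y).1 ≠ 0 ∧
        (t, y).2 ^ 67 = (t, y).1 * (1 - (t, y).1) ^ 29 then (1 : ℂ) else 0) =
        ((univ.filter fun y : E => y ^ 67 = t * (1 - t) ^ 29).card : ℂ) := by
      rw [Finset.card_filter]
      push_cast
      refine Finset.sum_congr rfl fun y _ => ?_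
      simp [ht, ht1]
    rw [e1, card_roots χ hχ ha]
    refine Finset.sum_congr rfl fun i _ => ?_
    rw [map_mul, map_pow, map_mul, map_pow, mul_pow]
    have a1 : ∀ (n : ℕ) (x : k) (hx : IsUnit x), (χ ^ n) x = χ x ^ n := by
      intro n x hx
      obtain ⟨u, rfl⟩ := hx
      exact MulChar.pow_apply_coe χ n u
    rw [← pow_mul, ← pow_mul, a1 _ _ hut, a1 _ _ hut1, mul_comm 29 i]
  rw [h1, Finset.sum_comm, Finset.sum_range_succ']
  have h0 : ∑ t : E, (χ ^ 0) (Algebra.norm k t) * ((χ ^ 0) ^ 29) (Algebra.norm k (1 - t)) =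
      (Fintype.card E : ℂ) - 2 := by
    rw [pow_zero, one_pow]
    have e2 : ∀ t ∈ (univ : Finset E) \ {0, 1}, (1 : MulChar k ℂ) (Algebra.norm k t) *
        (1 : MulChar k ℂ) (Algebra.norm k (1 - t)) = 1 := by
      intro t ht
      simp only [mem_sdiff, mem_univ, mem_insert, mem_singleton, true_and, not_or] at ht
      have ht1 : 1 - t ≠ 0 := sub_ne_zero.2 (Ne.symm ht.2)
      have hut : IsUnit (Algebra.norm k t) := (Units.mk0 t ht.1).isUnit.map (Algebra.norm k)
      have hut1 : IsUnit (Algebra.norm k (1 - t)) :=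
        (Units.mk0 _ ht1).isUnit.map (Algebra.norm k)
      rw [MulChar.one_apply hut, MulChar.one_apply hut1, mul_one]
    have e3 : ∑ t : E, (1 : MulChar k ℂ) (Algebra.norm k t) *
        (1 : MulChar k ℂ) (Algebra.norm k (1 - t)) =
        ∑ t ∈ (univ : Finset E) \ {0, 1}, (1 : MulChar k ℂ) (Algebra.norm k t) *
        (1 : MulChar k ℂ) (Algebra.norm k (1 - t)) := by
      symm
      apply Finset.sum_subset (subset_univ _)
      intro t _ ht
      have : t = 0 ∨ t = 1 := by
        by_contra hcon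
        apply ht
        simpa [not_or] using hcon
      rcases this with rfl | rfl
      · simp [MulChar.map_zero]
      · simp [MulChar.map_zero]
    rw [e3, Finset.sum_congr rfl e2, sum_const, nsmul_eq_mul, mul_one,
      Finset.card_sdiff_of_subset (subset_univ _), Finset.card_univ,
      Finset.card_pair (zero_ne_one)]
    rw [Nat.cast_sub]
    · norm_num
    · exact Fintype.one_lt_card
  have hi : ∀ i ∈ range 66, ∑ t : E, (χ ^ (i + 1)) (Algebra.norm k t) *
      ((χ ^ (i + 1)) ^ 29) (Algebra.norm k (1 - t)) =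
      (fun z : ℂ => -(-z) ^ (Module.finrank k E)) (f χ (i + 1)) := by
    intro i hi
    rw [mem_range] at hi
    have hne : χ ^ (i + 1) ≠ 1 := by
      intro h
      have := orderOf_dvd_of_pow_eq_one h
      rw [hχ] at this
      have := Nat.le_of_dvd (by omega) this
      omega
    rw [hasse_davenport_jacobi _ _ hne]
    simp only [f]
    obtain ⟨n, hn⟩ : ∃ n, Module.finrank k E = n + 1 := ⟨_, (Nat.sub_add_cancel hm).symm⟩
    rw [hn, Nat.add_sub_cancel, neg_pow (jacobiSum _ _) (n + 1), pow_succ (-1 : ℂ) n]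
    ring
  rw [h0, Finset.sum_congr rfl hi,
    sum_f χ hp hχ h33 h3 (fun z : ℂ => -(-z) ^ (Module.finrank k E))]
  have e66 : χ ^ 66 = χ⁻¹ := by
    rw [eq_inv_iff_mul_eq_one, ← pow_succ, h67]
  simp only [f, pow_one, e66]
  ring
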