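import Mathlib

/-!
A discrete Poincare-Miranda theorem, proved with mod 2 cup products on a cubical grid.
-/

set_option autoImplicit false

open Finset

namespace Pool.Agent.Helper63

/-- indicator vector of a finite set of coordinates -/
def ind (A : Finset ℕ) : ℕ → ℕ := fun i => if i ∈ A then 1 else 0

theorem ind_erase_add {A : Finset ℕ} {j : ℕ} (hj : j ∈ A) (v : ℕ → ℕ) :
    v + ind {j} + ind (A.erase j) = v + ind A := by
  funext i
  by_cases hi : i = j
  · subst hi
    simp [ind, hj]
  · simp [ind, hi]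

theorem ind_erase_erase_add {A : Finset ℕ} {i j : ℕ} (hj : j ∈ A) (hij : i ≠ j) (v : ℕ → ℕ) :
    v + ind {j} + ind ((A.erase j).erase i) = v + ind (A.erase i) := by
  have h1 : j ∈ A.erase i := Finset.mem_erase.2 ⟨hij.symm, hj⟩
  rw [Finset.erase_right_comm]
  exact ind_erase_add h1 v

/-- the cup product of the coboundaries of `a 0, ..., a (k-1)` on the face `(v, A)` -/
def cup (a : ℕ → (ℕ → ℕ) → ZMod 2) : ℕ → (ℕ → ℕ) → Finset ℕ → ZMod 2
  | 0, _, _ => 1
  | k + 1, v, A => ∑ j ∈ A, cup a k v (A.erase j) * (a k (v + ind A) + a k (v + ind (A.erase j)))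

theorem zmod2_add_self (x : ZMod 2) : x + x = 0 := by
  revert x
  decide

theorem sum_swap {A : Finset ℕ} (f : ℕ → ℕ → ZMod 2) :
    ∑ j ∈ A, ∑ i ∈ A.erase j, f j i = ∑ i ∈ A, ∑ j ∈ A.erase i, f j i := by
  refine Finset.sum_comm' ?_
  intro x y
  simp only [Finset.mem_erase]
  constructor
  · rintro ⟨h1, h2, h3⟩
    exact ⟨⟨h2.symm, h1⟩, h3⟩
  · rintro ⟨⟨h1, h2⟩, h3⟩
    exact ⟨h2, h1.symm, h3⟩

theorem sum_symm {A : Finset ℕ} (f : ℕ → ℕ → ZMod 2) (hf : ∀ i j, f i j = f j i) :
    ∑ j ∈ A, ∑ i ∈ A.erase j, f j i = 0 := by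
  have h : ∑ j ∈ A, ∑ i ∈ A.erase j, f j i = ∑ p ∈ A.offDiag, f p.1 p.2 := by
    rw [Finset.sum_sigma']
    refine Finset.sum_bij (fun p _ => (p.1, p.2)) ?_ ?_ ?_ ?_
    · rintro ⟨a, b⟩ h
      simp only [Finset.mem_sigma, Finset.mem_erase] at h
      simp only [Finset.mem_offDiag]
      exact ⟨h.1, h.2.2, h.2.1.symm⟩
    · rintro ⟨a, b⟩ _ ⟨c, d⟩ _ h
      simp only [Prod.mk.injEq] at h
      obtain ⟨rfl, rfl⟩ := h
      rfl
    · rintro ⟨a, b⟩ h
      simp only [Finset.mem_offDiag] at h
      exact ⟨⟨a, b⟩, by simp only [Finset.mem_sigma, Finset.mem_erase]; exact ⟨h.1, h.2.2.symm, h.2.1⟩, rfl⟩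
    · rintro ⟨a, b⟩ _
      rfl
  rw [h]
  refine Finset.sum_involution (fun p _ => (p.2, p.1)) ?_ ?_ ?_ ?_
  · rintro ⟨a, b⟩ _
    simp only
    rw [hf b a]
    exact zmod2_add_self _
  · rintro ⟨a, b⟩ h _ h'
    simp only [Finset.mem_offDiag] at h
    simp only [Prod.mk.injEq] at h'
    exact h.2.2 h'.2
  · rintro ⟨a, b⟩ h
    simp only [Finset.mem_offDiag] at h ⊢
    exact ⟨h.2.1, h.1, h.2.2.symm⟩
  · rintro ⟨a, b⟩ _
    rfl

/-- the cup product is a cocycle -/
theorem cup_cocycle (a : ℕ → (ℕ → ℕ) → ZMod 2) (k : ℕ) : ∀ (v : ℕ → ℕ) (A : Finset ℕ),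
    A.card = k + 1 →
    ∑ j ∈ A, (cup a k (v + ind {j}) (A.erase j) + cup a k v (A.erase j)) = 0 := by
  induction k with
  | zero =>
    intro v A hA
    simp only [cup]
    refine Finset.sum_eq_zero fun j _ => ?_
    decide
  | succ k ih =>
    intro v A hA
    -- abbreviations
    set X : ℕ → ℕ → ZMod 2 := fun j i => cup a k (v + ind {j}) ((A.erase j).erase i) with hX
    set Y : ℕ → ℕ → ZMod 2 := fun j i => cup a k v ((A.erase j).erase i) with hY
    have hYsymm : ∀ i j, Y i j = Y j i := by
      intro i j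
      simp only [hY]
      rw [Finset.erase_right_comm]
    have hIH : ∀ i ∈ A, ∑ j ∈ A.erase i, (X j i + Y j i) = 0 := by
      intro i hi
      have := ih v (A.erase i) (by rw [Finset.card_erase_of_mem hi, hA]; rfl)
      rw [← this]
      refine Finset.sum_congr rfl fun j _ => ?_
      simp only [hX, hY]
      rw [Finset.erase_right_comm]
    have step : ∀ j ∈ A, (cup a (k + 1) (v + ind {j}) (A.erase j) + cup a (k + 1) v (A.erase j)) =
        ∑ i ∈ A.erase j, ((X j i * a k (v + ind A) + X j i * a k (v + ind (A.erase i))) +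
          (Y j i * a k (v + ind (A.erase j)) + Y j i * a k (v + ind ((A.erase j).erase i)))) := by
      intro j hj
      simp only [cup]
      rw [← Finset.sum_add_distrib]
      refine Finset.sum_congr rfl fun i hi => ?_
      rw [ind_erase_add hj, ind_erase_erase_add hj (Finset.ne_of_mem_erase hi)]
      simp only [hX, hY]
      ring
    rw [Finset.sum_congr rfl step]
    simp only [Finset.sum_add_distrib]
    have h4 : ∑ j ∈ A, ∑ i ∈ A.erase j, Y j i * a k (v + ind ((A.erase j).erase i)) = 0 := by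
      refine sum_symm (fun j i => Y j i * a k (v + ind ((A.erase j).erase i))) ?_
      intro i j
      rw [hYsymm i j, Finset.erase_right_comm]
    have h1 : ∑ j ∈ A, ∑ i ∈ A.erase j, X j i * a k (v + ind A) = 0 := by
      have e1 : ∑ j ∈ A, ∑ i ∈ A.erase j, X j i * a k (v + ind A) =
          (∑ j ∈ A, ∑ i ∈ A.erase j, X j i) * a k (v + ind A) := by
        rw [Finset.sum_mul]
        refine Finset.sum_congr rfl fun j _ => ?_
        rw [Finset.sum_mul]
      have e2 : ∑ j ∈ A, ∑ i ∈ A.erase j, X j i = 0 := by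
        rw [sum_swap]
        have e3 : ∑ i ∈ A, ∑ j ∈ A.erase i, X j i = ∑ i ∈ A, ∑ j ∈ A.erase i, Y j i := by
          refine Finset.sum_congr rfl fun i hi => ?_
          have := hIH i hi
          rw [Finset.sum_add_distrib] at this
          have h2 := zmod2_add_self (∑ j ∈ A.erase i, Y j i)
          exact add_right_cancel (this.trans h2.symm)
        rw [e3, ← sum_swap (fun j i => Y j i)]
        exact sum_symm Y hYsymm
      rw [e1, e2, zero_mul]
    have h23 : ∑ j ∈ A, ∑ i ∈ A.erase j, X j i * a k (v + ind (A.erase i)) +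
        ∑ j ∈ A, ∑ i ∈ A.erase j, Y j i * a k (v + ind (A.erase j)) = 0 := by
      rw [sum_swap (fun j i => X j i * a k (v + ind (A.erase i))), ← Finset.sum_add_distrib]
      refine Finset.sum_eq_zero fun i hi => ?_
      rw [← Finset.sum_add_distrib]
      have : ∑ j ∈ A.erase i, (X j i * a k (v + ind (A.erase i)) + Y i j * a k (v + ind (A.erase i))) =
          (∑ j ∈ A.erase i, (X j i + Y j i)) * a k (v + ind (A.erase i)) := by
        rw [Finset.sum_mul]
        refine Finset.sum_congr rfl fun j _ => ?_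
        rw [hYsymm i j]
        ring
      rw [this, hIH i hi, zero_mul]
    rw [h1, h4, zero_add, add_zero]
    exact h23

/-- the cup product vanishes on faces on which one of the factors is constant -/
theorem cup_eq_zero (a : ℕ → (ℕ → ℕ) → ZMod 2) {j : ℕ} {r : ZMod 2} (k : ℕ) :
    ∀ (v : ℕ → ℕ) (A : Finset ℕ), j < k → (∀ T, T ⊆ A → a j (v + ind T) = r) →
    cup a k v A = 0 := by
  induction k with
  | zero => intro v A h; omega
  | succ k ih =>
    intro v A hjk h
    simp only [cup]
    refine Finset.sum_eq_zero fun i _ => ?_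
    rcases Nat.lt_succ_iff_lt_or_eq.1 hjk with hlt | rfl
    · rw [ih v (A.erase i) hlt fun T hT => h T (hT.trans (Finset.erase_subset _ _)), zero_mul]
    · rw [h A subset_rfl, h _ (Finset.erase_subset _ _), zmod2_add_self, mul_zero]

/-- summation over the box `[0, N)^n` in the first `n` coordinates -/
def boxSum (N : ℕ) : ℕ → ((ℕ → ℕ) → ZMod 2) → (ℕ → ℕ) → ZMod 2
  | 0, g, v => g v
  | n + 1, g, v => ∑ t ∈ Finset.range N, boxSum N n g (Function.update v n t)

theorem boxSum_congr {N : ℕ} (n : ℕ) {g g' : (ℕ → ℕ) → ZMod 2} : ∀ (v : ℕ → ℕ),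
    (∀ w : ℕ → ℕ, (∀ i, n ≤ i → w i = v i) → g w = g' w) → boxSum N n g v = boxSum N n g' v := by
  induction n with
  | zero =>
    intro v h
    exact h v fun _ _ => rfl
  | succ n ih =>
    intro v h
    simp only [boxSum]
    refine Finset.sum_congr rfl fun t _ => ih _ fun w hw => h w fun i hi => ?_
    rw [hw i (by omega), Function.update_of_ne (by omega)]

theorem boxSum_zero {N : ℕ} (n : ℕ) : ∀ v, boxSum N n (fun _ => 0) v = 0 := by
  induction n with
  | zero => intro v; rfl
  | succ n ih =>
    intro v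
    simp only [boxSum]
    exact Finset.sum_eq_zero fun t _ => ih _

theorem boxSum_add {N : ℕ} (n : ℕ) (g g' : (ℕ → ℕ) → ZMod 2) : ∀ v,
    boxSum N n (fun w => g w + g' w) v = boxSum N n g v + boxSum N n g' v := by
  induction n with
  | zero => intro v; rfl
  | succ n ih =>
    intro v
    simp only [boxSum]
    rw [← Finset.sum_add_distrib]
    exact Finset.sum_congr rfl fun t _ => ih _

theorem boxSum_sum {N : ℕ} (n : ℕ) (s : Finset ℕ) (g : ℕ → (ℕ → ℕ) → ZMod 2) (v : ℕ → ℕ) :
    boxSum N n (fun w => ∑ j ∈ s, g j w) v = ∑ j ∈ s, boxSum N n (g j) v := by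
  induction s using Finset.induction_on with
  | empty => simpa using boxSum_zero n v
  | insert j s hj ih =>
    simp only [Finset.sum_insert hj]
    rw [boxSum_add, ih]

theorem boxSum_shift {N : ℕ} (n : ℕ) (g : (ℕ → ℕ) → ZMod 2) {j : ℕ} : ∀ v, n ≤ j →
    boxSum N n (fun w => g (w + ind {j})) v = boxSum N n g (v + ind {j}) := by
  induction n with
  | zero => intro v _; rfl
  | succ n ih =>
    intro v hj
    simp only [boxSum]
    refine Finset.sum_congr rfl fun t _ => ?_
    rw [ih _ (by omega)]
    congr 1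
    funext i
    by_cases hi : i = n
    · subst hi
      have : i ≠ j := by omega
      simp [ind, this]
    · simp [Function.update_of_ne hi]

theorem sum_tele (N : ℕ) (φ : ℕ → ZMod 2) :
    ∑ t ∈ Finset.range N, (φ (t + 1) + φ t) = φ N + φ 0 := by
  induction N with
  | zero => simp [zmod2_add_self]
  | succ N ih =>
    rw [Finset.sum_range_succ, ih]
    have := zmod2_add_self (φ N)
    calc φ N + φ 0 + (φ (N + 1) + φ N) = φ (N + 1) + φ 0 + (φ N + φ N) := by ring
      _ = φ (N + 1) + φ 0 := by rw [this, add_zero]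

theorem boxSum_succ_delta {N : ℕ} (n : ℕ) (g : (ℕ → ℕ) → ZMod 2) (v : ℕ → ℕ) :
    boxSum N (n + 1) (fun w => g (w + ind {n}) + g w) v =
      boxSum N n g (Function.update v n N) + boxSum N n g (Function.update v n 0) := by
  simp only [boxSum]
  rw [← sum_tele N fun t => boxSum N n g (Function.update v n t)]
  refine Finset.sum_congr rfl fun t _ => ?_
  rw [boxSum_add, boxSum_shift n g _ le_rfl]
  congr 2
  funext i
  by_cases hi : i = n
  · subst hi
    simp [ind]
  · simp [ind, hi]

theorem boxSum_delta_eq_zero {N : ℕ} (n : ℕ) (g : (ℕ → ℕ) → ZMod 2) {j : ℕ} : ∀ v, j < n →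
    (∀ w, w j = 0 → g w = 0) → (∀ w, w j = N → g w = 0) →
    boxSum N n (fun w => g (w + ind {j}) + g w) v = 0 := by
  induction n with
  | zero => intro v h; omega
  | succ n ih =>
    intro v hj h0 h1
    rcases Nat.lt_succ_iff_lt_or_eq.1 hj with hlt | rfl
    · simp only [boxSum]
      exact Finset.sum_eq_zero fun t _ => ih _ hlt h0 h1
    · rw [boxSum_succ_delta]
      rw [boxSum_congr (g' := fun _ => 0) j _ fun w hw => h1 w (by rw [hw j le_rfl]; simp),
        boxSum_congr (g' := fun _ => 0) j _ fun w hw => h0 w (by rw [hw j le_rfl]; simp),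
        boxSum_zero, boxSum_zero, add_zero]

theorem cup_eq_delta (a : ℕ → (ℕ → ℕ) → ZMod 2) (n : ℕ) (w : ℕ → ℕ) (R : Finset ℕ)
    (hR : R.card = n + 1) :
    cup a (n + 1) w R = ∑ j ∈ R,
      ((cup a n (w + ind {j}) (R.erase j) * a n (w + ind {j} + ind (R.erase j))) +
        (cup a n w (R.erase j) * a n (w + ind (R.erase j)))) := by
  simp only [cup, mul_add, Finset.sum_add_distrib]
  congr 1
  have h := cup_cocycle a n w R hR
  rw [Finset.sum_add_distrib] at h
  have h' : ∑ j ∈ R, cup a n (w + ind {j}) (R.erase j) = ∑ j ∈ R, cup a n w (R.erase j) :=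
    add_right_cancel (h.trans (zmod2_add_self _).symm)
  rw [← Finset.sum_mul, ← h', Finset.sum_mul]
  refine Finset.sum_congr rfl fun j hj => ?_
  rw [ind_erase_add hj]

theorem boxSum_cup {N : ℕ} (a : ℕ → (ℕ → ℕ) → ZMod 2) (n : ℕ) :
    (∀ k, k < n → ∀ v : ℕ → ℕ, v k = 0 → a k v = 0) →
    (∀ k, k < n → ∀ v : ℕ → ℕ, v k = N → a k v = 1) →
    ∀ v, boxSum N n (fun w => cup a n w (Finset.range n)) v = 1 := by
  induction n with
  | zero => intro _ _ v; rfl
  | succ n ih =>
    intro h0 h1 v
    have hcard : (Finset.range (n + 1)).card = n + 1 := Finset.card_range _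
    have e : (fun w => cup a (n + 1) w (Finset.range (n + 1))) = fun w =>
        ∑ j ∈ Finset.range (n + 1),
          ((fun j w => cup a n w ((Finset.range (n + 1)).erase j) *
              a n (w + ind ((Finset.range (n + 1)).erase j))) j (w + ind {j}) +
            (fun j w => cup a n w ((Finset.range (n + 1)).erase j) *
              a n (w + ind ((Finset.range (n + 1)).erase j))) j w) := by
      funext w
      rw [cup_eq_delta a n w _ hcard]
    rw [e, boxSum_sum, Finset.sum_range_succ]
    have hvanish : ∀ j ∈ Finset.range n, boxSum N (n + 1) (fun w =>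
          ((fun j w => cup a n w ((Finset.range (n + 1)).erase j) *
              a n (w + ind ((Finset.range (n + 1)).erase j))) j (w + ind {j}) +
            (fun j w => cup a n w ((Finset.range (n + 1)).erase j) *
              a n (w + ind ((Finset.range (n + 1)).erase j))) j w)) v = 0 := by
      intro j hj
      have hj' : j < n := Finset.mem_range.1 hj
      refine boxSum_delta_eq_zero (n + 1)
        (fun w => cup a n w ((Finset.range (n + 1)).erase j) *
              a n (w + ind ((Finset.range (n + 1)).erase j))) v (by omega) ?_ ?_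
      · intro w hw
        rw [cup_eq_zero a (j := j) (r := 0) n w _ hj', zero_mul]
        intro T hT
        refine h0 j (by omega) _ ?_
        have : j ∉ T := fun h => Finset.notMem_erase j _ (hT h)
        simp [ind, this, hw]
      · intro w hw
        rw [cup_eq_zero a (j := j) (r := 1) n w _ hj', zero_mul]
        intro T hT
        refine h1 j (by omega) _ ?_
        have : j ∉ T := fun h => Finset.notMem_erase j _ (hT h)
        simp [ind, this, hw]
    rw [Finset.sum_eq_zero hvanish, zero_add, boxSum_succ_delta n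
      (fun w => cup a n w ((Finset.range (n + 1)).erase n) *
              a n (w + ind ((Finset.range (n + 1)).erase n)))]
    have herase : (Finset.range (n + 1)).erase n = Finset.range n := by
      ext i
      simp only [Finset.mem_erase, Finset.mem_range]
      omega
    rw [herase]
    rw [boxSum_congr (g' := fun w => cup a n w (Finset.range n)) n _ fun w hw => ?_,
      boxSum_congr (g' := fun _ => 0) n (Function.update v n 0) fun w hw => ?_, boxSum_zero,
      add_zero]
    · exact ih (fun k hk => h0 k (by omega)) (fun k hk => h1 k (by omega)) _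
    · have hw' : w n = 0 := by rw [hw n le_rfl]; simp
      rw [h0 n (by omega) (w + ind (Finset.range n)) (by simp [ind, hw']), mul_zero]
    · have hw' : w n = N := by rw [hw n le_rfl]; simp
      rw [h1 n (by omega) (w + ind (Finset.range n)) (by simp [ind, hw']), mul_one]

/-- Discrete Poincare-Miranda theorem. -/
theorem discrete_miranda (N n : ℕ) (a : ℕ → (ℕ → ℕ) → ZMod 2)
    (h0 : ∀ k, k < n → ∀ v : ℕ → ℕ, v k = 0 → a k v = 0)
    (h1 : ∀ k, k < n → ∀ v : ℕ → ℕ, v k = N → a k v = 1) :
    ∃ v : ℕ → ℕ, ∀ k, k < n → ∀ r : ZMod 2, ∃ T ⊆ Finset.range n, a k (v + ind T) ≠ r := by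
  by_contra hcon
  push Not at hcon
  have h := boxSum_cup (N := N) a n h0 h1 0
  rw [boxSum_congr (g' := fun _ => 0) n 0 fun w _ => ?_, boxSum_zero] at h
  · exact absurd h (by decide)
  · obtain ⟨k, hk, r, hr⟩ := hcon w
    exact cup_eq_zero a n w _ hk hr

end Pool.Agent.Helper63
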