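import Pool.Agent.Helper63.Comb

/-!
Inessential families of pairs of opposite faces on subsets of the Hilbert cube.
-/

set_option autoImplicit false

open Set Filter Topology

namespace Pool.Agent.Helper63

/-- the Hilbert cube -/
abbrev Q : Type := ℕ → unitInterval

/-- the pairs of opposite faces number `m, ..., M - 1` are inessential on `Z` -/
def Wd (m M : ℕ) (Z : Set Q) : Prop :=
  ∃ E E' : ℕ → Set Q,
    (∀ i, m ≤ i → i < M → IsClosed (E i) ∧ IsClosed (E' i) ∧ Disjoint (E i) (E' i) ∧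
      (∀ x ∈ Z, x i = 0 → x ∈ E i) ∧ (∀ x ∈ Z, x i = 1 → x ∈ E' i)) ∧
    ∀ x ∈ Z, ∃ i, m ≤ i ∧ i < M ∧ (x ∈ E i ∨ x ∈ E' i)

theorem Wd.mono {m M : ℕ} {Z Z' : Set Q} (h : Wd m M Z) (hZ : Z' ⊆ Z) : Wd m M Z' := by
  obtain ⟨E, E', h1, h2⟩ := h
  refine ⟨E, E', fun i hi hi' => ?_, fun x hx => h2 x (hZ hx)⟩
  obtain ⟨a, b, c, d, e⟩ := h1 i hi hi'
  exact ⟨a, b, c, fun x hx => d x (hZ hx), fun x hx => e x (hZ hx)⟩

theorem isClosed_face0 (i : ℕ) : IsClosed {x : Q | x i = 0} :=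
  isClosed_eq (continuous_apply i) continuous_const

theorem isClosed_face1 (i : ℕ) : IsClosed {x : Q | x i = 1} :=
  isClosed_eq (continuous_apply i) continuous_const

theorem disjoint_face (i : ℕ) : Disjoint {x : Q | x i = 0} {x : Q | x i = 1} := by
  rw [Set.disjoint_left]
  intro x hx hx'
  simp only [mem_ofPred_eq] at hx hx'
  rw [hx] at hx'
  exact zero_ne_one hx'

theorem Wd.mono_right {m M M' : ℕ} {Z : Set Q} (h : Wd m M Z) (hM : M ≤ M') : Wd m M' Z := by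
  classical
  obtain ⟨E, E', h1, h2⟩ := h
  refine ⟨fun i => if i < M then E i else {x | x i = 0},
    fun i => if i < M then E' i else {x | x i = 1}, fun i hi hi' => ?_, fun x hx => ?_⟩
  · by_cases hiM : i < M
    · simp only [hiM, if_true]
      exact h1 i hi hiM
    · simp only [hiM, if_false]
      exact ⟨isClosed_face0 i, isClosed_face1 i, disjoint_face i, fun x _ h => h, fun x _ h => h⟩
  · obtain ⟨i, hi, hi', h⟩ := h2 x hx
    refine ⟨i, hi, hi'.trans_le hM, ?_⟩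
    simpa [hi'] using h

theorem Wd.empty (m M : ℕ) : Wd m M ∅ :=
  ⟨fun _ => ∅, fun _ => ∅, fun _ _ _ => ⟨isClosed_empty, isClosed_empty, disjoint_empty _,
    fun x hx => absurd hx (by simp), fun x hx => absurd hx (by simp)⟩,
    fun x hx => absurd hx (by simp)⟩

theorem exists_nhds_disjoint_closure {X : Type*} [TopologicalSpace X] [NormalSpace X]
    {s t : Set X} (hs : IsClosed s) (ht : IsClosed t) (h : Disjoint s t) :
    ∃ G G' : Set X, IsOpen G ∧ IsOpen G' ∧ Disjoint (closure G) (closure G') ∧ s ⊆ G ∧ t ⊆ G' := by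
  obtain ⟨G, hG, hsG, hGt⟩ := normal_exists_closure_subset hs ht.isOpen_compl
    h.subset_compl_right
  obtain ⟨G', hG', htG, hGG'⟩ := normal_exists_closure_subset ht
    (isClosed_closure (s := G)).isOpen_compl (by
      intro x hx hx'
      exact hGt hx' hx)
  refine ⟨G, G', hG, hG', ?_, hsG, htG⟩
  rw [Set.disjoint_left]
  intro x hx hx'
  exact hGG' hx' hx

/-- From closed disjoint `E i`, `E' i` relative to a closed set `Z0 ⊆ Z`, where `E i`, `E' i`
contain the faces of `Z0`, we get open sets with disjoint closures containing them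
and the faces of `Z`. -/
theorem enlarge {i : ℕ} {Z Z0 E E' : Set Q} (hZ : IsClosed Z) (hZ0 : IsClosed Z0)
    (a : IsClosed E) (b : IsClosed E') (c : Disjoint E E')
    (d : ∀ x ∈ Z0, x i = 0 → x ∈ E) (e : ∀ x ∈ Z0, x i = 1 → x ∈ E') :
    ∃ G G' : Set Q, IsOpen G ∧ IsOpen G' ∧
      Disjoint (closure G) (closure G') ∧ (E ∩ Z0) ∪ (Z ∩ {x | x i = 0}) ⊆ G ∧
      (E' ∩ Z0) ∪ (Z ∩ {x | x i = 1}) ⊆ G' := by
  have hcl1 : IsClosed ((E ∩ Z0) ∪ (Z ∩ {x : Q | x i = 0})) :=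
    (a.inter hZ0).union (hZ.inter (isClosed_face0 i))
  have hcl2 : IsClosed ((E' ∩ Z0) ∪ (Z ∩ {x : Q | x i = 1})) :=
    (b.inter hZ0).union (hZ.inter (isClosed_face1 i))
  refine exists_nhds_disjoint_closure hcl1 hcl2 ?_
  rw [Set.disjoint_left]
  rintro x (⟨hx1, hx2⟩ | ⟨hx1, hx2⟩) (⟨hx3, hx4⟩ | ⟨hx3, hx4⟩)
  · exact Set.disjoint_left.1 c hx1 hx3
  · exact Set.disjoint_left.1 c hx1 (e x hx2 hx4)
  · exact Set.disjoint_left.1 c (d x hx4 hx2) hx3
  · exact Set.disjoint_left.1 (disjoint_face i) hx2 hx4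

/-- gluing lemma -/
theorem Wd.glue {m M M' : ℕ} {Z1 Z2 : Set Q} (hc1 : IsClosed Z1) (hc2 : IsClosed Z2)
    (hmM : m ≤ M) (hMM' : M ≤ M')
    (h1 : Wd m M Z1) (h2 : Wd m M Z2) (h12 : Wd M M' (Z1 ∩ Z2)) : Wd m M' (Z1 ∪ Z2) := by
  classical
  obtain ⟨E1, E1', h1a, h1b⟩ := h1
  obtain ⟨E2, E2', h2a, h2b⟩ := h2
  obtain ⟨E, E', ha, hb⟩ := h12
  -- enlarge `E i`, `E' i` for `M ≤ i < M'`
  have key : ∀ i, ∃ G G' : Set Q, M ≤ i → i < M' → IsOpen G ∧ IsOpen G' ∧
      Disjoint (closure G) (closure G') ∧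
      (E i ∩ (Z1 ∩ Z2)) ∪ ((Z1 ∪ Z2) ∩ {x | x i = 0}) ⊆ G ∧
      (E' i ∩ (Z1 ∩ Z2)) ∪ ((Z1 ∪ Z2) ∩ {x | x i = 1}) ⊆ G' := by
    intro i
    by_cases hi : M ≤ i ∧ i < M'
    · obtain ⟨a, b, c, d, e⟩ := ha i hi.1 hi.2
      obtain ⟨G, G', h⟩ := enlarge (hc1.union hc2) (hc1.inter hc2) a b c d e
      exact ⟨G, G', fun _ _ => h⟩
    · exact ⟨∅, ∅, fun h h' => absurd ⟨h, h'⟩ hi⟩
  choose G G' hG using key
  -- the residual compact set
  set R : Set Q := {x | ∀ i, M ≤ i → i < M' → x ∉ G i ∧ x ∉ G' i} with hR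
  have hRc : IsClosed R := by
    have : R = ⋂ i, ⋂ (_ : M ≤ i), ⋂ (_ : i < M'), ((G i)ᶜ ∩ (G' i)ᶜ) := by
      ext x
      simp [hR]
    rw [this]
    refine isClosed_iInter fun i => isClosed_iInter fun h => isClosed_iInter fun h' => ?_
    exact (hG i h h').1.isClosed_compl.inter (hG i h h').2.1.isClosed_compl
  have hRd : ∀ x ∈ R, x ∈ Z1 → x ∈ Z2 → False := by
    intro x hx h1 h2
    obtain ⟨i, hi, hi', h⟩ := hb x ⟨h1, h2⟩
    have hGi := hG i hi hi'
    rcases h with h | h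
    · exact (hx i hi hi').1 (hGi.2.2.2.1 (Or.inl ⟨h, h1, h2⟩))
    · exact (hx i hi hi').2 (hGi.2.2.2.2 (Or.inl ⟨h, h1, h2⟩))
  refine ⟨fun i => if i < M then ((E1 i ∩ (R ∩ Z1)) ∪ (E2 i ∩ (R ∩ Z2))) ∪
      ((Z1 ∪ Z2) ∩ {x | x i = 0}) else closure (G i),
    fun i => if i < M then ((E1' i ∩ (R ∩ Z1)) ∪ (E2' i ∩ (R ∩ Z2))) ∪
      ((Z1 ∪ Z2) ∩ {x | x i = 1}) else closure (G' i), fun i hi hi' => ?_, fun x hx => ?_⟩
  · by_cases hiM : i < M
    · simp only [hiM, if_true]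
      obtain ⟨a1, b1, c1, d1, e1⟩ := h1a i hi hiM
      obtain ⟨a2, b2, c2, d2, e2⟩ := h2a i hi hiM
      refine ⟨?_, ?_, ?_, fun x hx h => Or.inr ⟨hx, h⟩, fun x hx h => Or.inr ⟨hx, h⟩⟩
      · exact ((a1.inter (hRc.inter hc1)).union (a2.inter (hRc.inter hc2))).union
          ((hc1.union hc2).inter (isClosed_face0 i))
      · exact ((b1.inter (hRc.inter hc1)).union (b2.inter (hRc.inter hc2))).union
          ((hc1.union hc2).inter (isClosed_face1 i))
      · rw [Set.disjoint_left]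
        rintro x ((⟨hx1, hx2, hx3⟩ | ⟨hx1, hx2, hx3⟩) | ⟨hx1, hx2⟩)
          ((⟨hy1, hy2, hy3⟩ | ⟨hy1, hy2, hy3⟩) | ⟨hy1, hy2⟩)
        · exact Set.disjoint_left.1 c1 hx1 hy1
        · exact hRd x hx2 hx3 hy3
        · exact Set.disjoint_left.1 c1 hx1 (e1 x hx3 hy2)
        · exact hRd x hx2 hy3 hx3
        · exact Set.disjoint_left.1 c2 hx1 hy1
        · exact Set.disjoint_left.1 c2 hx1 (e2 x hx3 hy2)
        · exact Set.disjoint_left.1 c1 (d1 x hy3 hx2) hy1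
        · exact Set.disjoint_left.1 c2 (d2 x hy3 hx2) hy1
        · exact Set.disjoint_left.1 (disjoint_face i) hx2 hy2
    · simp only [hiM, if_false]
      obtain ⟨a, b, c, d, e⟩ := hG i (by omega) hi'
      exact ⟨isClosed_closure, isClosed_closure, c,
        fun x hx h => subset_closure (d (Or.inr ⟨hx, h⟩)),
        fun x hx h => subset_closure (e (Or.inr ⟨hx, h⟩))⟩
  · by_cases hxR : x ∈ R
    · rcases hx with hx | hx
      · obtain ⟨i, hi, hi', h⟩ := h1b x hx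
        refine ⟨i, hi, hi'.trans_le hMM', ?_⟩
        simp only [hi', if_true]
        rcases h with h | h
        · exact Or.inl (Or.inl (Or.inl ⟨h, hxR, hx⟩))
        · exact Or.inr (Or.inl (Or.inl ⟨h, hxR, hx⟩))
      · obtain ⟨i, hi, hi', h⟩ := h2b x hx
        refine ⟨i, hi, hi'.trans_le hMM', ?_⟩
        simp only [hi', if_true]
        rcases h with h | h
        · exact Or.inl (Or.inl (Or.inr ⟨h, hxR, hx⟩))
        · exact Or.inr (Or.inl (Or.inr ⟨h, hxR, hx⟩))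
    · simp only [hR, mem_ofPred_eq, not_forall] at hxR
      obtain ⟨i, hi, hi', h⟩ := hxR
      refine ⟨i, hmM.trans hi, hi', ?_⟩
      simp only [not_lt.2 hi, if_false]
      by_cases hg : x ∈ G i
      · exact Or.inl (subset_closure hg)
      · refine Or.inr (subset_closure ?_)
        by_contra hg'
        exact h ⟨hg, hg'⟩

/-- upper semicontinuity -/
theorem Wd.exists_open {m M : ℕ} {Z Z0 : Set Q} (hZ : IsClosed Z) (hZ0 : IsClosed Z0)
    (h : Wd m M Z0) : ∃ O : Set Q, IsOpen O ∧ Z0 ⊆ O ∧ Wd m M (Z ∩ O) := by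
  classical
  obtain ⟨E, E', ha, hb⟩ := h
  have key : ∀ i, ∃ G G' : Set Q, m ≤ i → i < M → IsOpen G ∧ IsOpen G' ∧
      Disjoint (closure G) (closure G') ∧
      (E i ∩ Z0) ∪ (Z ∩ {x | x i = 0}) ⊆ G ∧
      (E' i ∩ Z0) ∪ (Z ∩ {x | x i = 1}) ⊆ G' := by
    intro i
    by_cases hi : m ≤ i ∧ i < M
    · obtain ⟨a, b, c, d, e⟩ := ha i hi.1 hi.2
      obtain ⟨G, G', h⟩ := enlarge hZ hZ0 a b c d e
      exact ⟨G, G', fun _ _ => h⟩
    · exact ⟨∅, ∅, fun h h' => absurd ⟨h, h'⟩ hi⟩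
  choose G G' hG using key
  refine ⟨⋃ i ∈ {i | m ≤ i ∧ i < M}, (G i ∪ G' i), ?_, ?_, fun i => closure (G i),
    fun i => closure (G' i), ?_, ?_⟩
  · refine isOpen_biUnion fun i hi => ?_
    exact (hG i hi.1 hi.2).1.union (hG i hi.1 hi.2).2.1
  · intro x hx
    obtain ⟨i, hi, hi', h⟩ := hb x hx
    refine mem_biUnion (x := i) ⟨hi, hi'⟩ ?_
    obtain ⟨_, _, _, d, e⟩ := hG i hi hi'
    rcases h with h | h
    · exact Or.inl (d (Or.inl ⟨h, hx⟩))
    · exact Or.inr (e (Or.inl ⟨h, hx⟩))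
  · intro i hi hi'
    obtain ⟨a, b, c, d, e⟩ := hG i hi hi'
    exact ⟨isClosed_closure, isClosed_closure, c,
        fun x hx h => subset_closure (d (Or.inr ⟨hx.1, h⟩)),
        fun x hx h => subset_closure (e (Or.inr ⟨hx.1, h⟩))⟩
  · rintro x ⟨-, hx⟩
    simp only [mem_iUnion] at hx
    obtain ⟨i, ⟨hi, hi'⟩, h⟩ := hx
    exact ⟨i, hi, hi', h.imp (fun h => subset_closure h) (fun h => subset_closure h)⟩

/-- the tail of a point of the Hilbert cube -/
def tail {α : Type*} (x : ℕ → α) : ℕ → α := fun n => x (n + 1)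

theorem continuous_tail {α : Type*} [TopologicalSpace α] : Continuous (tail (α := α)) :=
  continuous_pi fun n => continuous_apply (n + 1)

/-- the zeroth pair is inessential on a fibre of the zeroth coordinate -/
theorem Wd.fibre_zero (x0 : unitInterval) (Z : Set Q) (hZ : ∀ z ∈ Z, z 0 = x0) : Wd 0 1 Z := by
  by_cases h : x0 = 1
  · refine ⟨fun _ => ∅, fun _ => univ, fun i _ hi => ⟨isClosed_empty, isClosed_univ,
      empty_disjoint _, fun z hz hz0 => ?_, fun _ _ _ => mem_univ _⟩,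
      fun x _ => ⟨0, le_rfl, one_pos, Or.inr (mem_univ _)⟩⟩
    obtain rfl : i = 0 := by omega
    rw [hZ z hz, h] at hz0
    exact absurd hz0 one_ne_zero
  · refine ⟨fun _ => univ, fun _ => ∅, fun i _ hi => ⟨isClosed_univ, isClosed_empty,
      disjoint_empty _, fun _ _ _ => mem_univ _, fun z hz hz0 => ?_⟩,
      fun x _ => ⟨0, le_rfl, one_pos, Or.inl (mem_univ _)⟩⟩
    obtain rfl : i = 0 := by omega
    rw [hZ z hz] at hz0
    exact absurd hz0 h

/-- shifting coordinates -/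
theorem Wd.shift {m M : ℕ} {Z Z' : Set Q} (h : Wd m M Z) (hZ : ∀ z ∈ Z', tail z ∈ Z) :
    Wd (m + 1) (M + 1) Z' := by
  obtain ⟨E, E', ha, hb⟩ := h
  refine ⟨fun i => tail ⁻¹' (E (i - 1)), fun i => tail ⁻¹' (E' (i - 1)), fun i hi hi' => ?_,
    fun z hz => ?_⟩
  · obtain ⟨a, b, c, d, e⟩ := ha (i - 1) (by omega) (by omega)
    refine ⟨a.preimage continuous_tail, b.preimage continuous_tail, c.preimage _,
      fun z hz h0 => d _ (hZ z hz) ?_, fun z hz h0 => e _ (hZ z hz) ?_⟩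
    · simp only [tail]
      rw [Nat.sub_add_cancel (by omega)]
      exact h0
    · simp only [tail]
      rw [Nat.sub_add_cancel (by omega)]
      exact h0
  · obtain ⟨i, hi, hi', h⟩ := hb _ (hZ z hz)
    exact ⟨i + 1, by omega, by omega, h⟩

/-- local-to-global principle -/
theorem Wd.local_global {m : ℕ} {Z : Set Q} (hZ : IsClosed Z)
    (h : ∀ z ∈ Z, ∃ Z1 Z2 : Set Q, IsClosed Z1 ∧ IsClosed Z2 ∧ Z = Z1 ∪ Z2 ∧ z ∉ Z2 ∧
      (∃ M, Wd m M Z1) ∧ ∀ M, ∃ M', M ≤ M' ∧ Wd M M' (Z1 ∩ Z2)) : ∃ M, Wd m M Z := by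
  classical
  choose! Z1 Z2 hc1 hc2 hZ12 hz hW hB using h
  have hcomp : IsCompact Z := hZ.isCompact
  obtain ⟨t, ht⟩ := hcomp.elim_nhds_subcover' (fun z _ => (Z2 z)ᶜ)
    (fun z hz' => (hc2 z hz').isOpen_compl.mem_nhds (hz z hz'))
  -- induction over finite sets
  have key : ∀ s : Finset Z, (∃ M, m ≤ M ∧ Wd m M (Z ∩ ⋂ z ∈ s, Z2 z)) → ∃ M, m ≤ M ∧ Wd m M Z := by
    intro s
    induction s using Finset.induction_on with
    | empty =>
      rintro ⟨M, hM, h⟩
      exact ⟨M, hM, by simpa using h⟩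
    | insert z s hzs ih =>
      rintro ⟨M, hM, h⟩
      apply ih
      obtain ⟨M1, hM1⟩ := hW z z.2
      set Y : Set Q := Z ∩ ⋂ z ∈ s, Z2 z with hY
      have hYc : IsClosed Y := hZ.inter (isClosed_biInter fun z _ => hc2 z z.2)
      have e1 : Y = (Y ∩ Z1 z) ∪ (Y ∩ Z2 z) := by
        rw [← inter_union_distrib_left, ← hZ12 z z.2, inter_eq_left.2]
        exact inter_subset_left
      have e2 : Z ∩ ⋂ z' ∈ insert z s, Z2 z' = Y ∩ Z2 z := by
        rw [Finset.set_biInter_insert, hY]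
        ext x
        simp only [mem_inter_iff]
        tauto
      rw [e2] at h
      obtain ⟨M', hMM', hM'⟩ := hB z z.2 (max M M1)
      refine ⟨M', hM.trans ((le_max_left M M1).trans hMM'), ?_⟩
      rw [e1]
      refine Wd.glue (hYc.inter (hc1 z z.2)) (hYc.inter (hc2 z z.2))
        (hM.trans (le_max_left M M1)) hMM'
        ((hM1.mono_right (le_max_right M M1)).mono inter_subset_right)
        (h.mono_right (le_max_left M M1)) (hM'.mono ?_)
      rintro x ⟨hx1, hx2⟩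
      exact ⟨hx1.2, hx2.2⟩
  have hempty : (Z ∩ ⋂ z ∈ t, Z2 z) = ∅ := by
    rw [eq_empty_iff_forall_notMem]
    rintro x ⟨hx, hx'⟩
    have := ht hx
    simp only [mem_iUnion] at this
    obtain ⟨z, hzt, hz'⟩ := this
    simp only [mem_iInter] at hx'
    exact hz' (hx' z hzt)
  obtain ⟨M, -, hM⟩ := key t ⟨m, le_rfl, by rw [hempty]; exact Wd.empty m m⟩
  exact ⟨M, hM⟩

/-- Poincare-Miranda / Lebesgue: the pairs of opposite faces are essential in the Hilbert cube -/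
theorem not_Wd_univ (M : ℕ) : ¬ Wd 0 M univ := by
  classical
  rintro ⟨E, E', ha, hb⟩
  -- embed the finite-dimensional cube
  let ψ : (Fin M → unitInterval) → Q := fun y i => if h : i < M then y ⟨i, h⟩ else 0
  have hψ : Continuous ψ := by
    refine continuous_pi fun i => ?_
    by_cases h : i < M
    · simp only [ψ, h, dif_pos]
      exact continuous_apply _
    · simp only [ψ, h, dif_neg, not_false_iff]
      exact continuous_const
  -- common distance
  have hδ : ∃ δ : ℝ, 0 < δ ∧ ∀ i ∈ Finset.range M,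
      Disjoint (Metric.thickening δ (ψ ⁻¹' E i)) (Metric.thickening δ (ψ ⁻¹' E' i)) := by
    have : ∀ᶠ δ : ℝ in 𝓝[>] 0, ∀ i ∈ Finset.range M,
        Disjoint (Metric.thickening δ (ψ ⁻¹' E i)) (Metric.thickening δ (ψ ⁻¹' E' i)) := by
      rw [Filter.eventually_all_finset]
      intro i hi
      obtain ⟨a, b, c, -, -⟩ := ha i (Nat.zero_le _) (Finset.mem_range.1 hi)
      obtain ⟨δ, hδ, hd⟩ := (c.preimage ψ).exists_thickenings (a.preimage hψ).isCompact
        (b.preimage hψ)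
      filter_upwards [Ioo_mem_nhdsGT hδ] with δ' hδ'
      exact hd.mono (Metric.thickening_mono hδ'.2.le _) (Metric.thickening_mono hδ'.2.le _)
    obtain ⟨δ, h1, h2⟩ := (this.and self_mem_nhdsWithin).exists
    exact ⟨δ, h2, h1⟩
  obtain ⟨δ, hδ0, hδ⟩ := hδ
  obtain ⟨N, hN⟩ := exists_nat_one_div_lt hδ0
  -- grid points
  have hg01 : ∀ (v : ℕ → ℕ) (i : ℕ), ((min (v i) (N + 1) : ℕ) : ℝ) / (N + 1) ∈ unitInterval := by
    intro v i
    have hpos : (0 : ℝ) < N + 1 := by positivity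
    refine ⟨by positivity, ?_⟩
    rw [div_le_one hpos]
    have : min (v i) (N + 1) ≤ N + 1 := min_le_right _ _
    exact_mod_cast this
  let g : (ℕ → ℕ) → (Fin M → unitInterval) := fun v i =>
    ⟨((min (v i) (N + 1) : ℕ) : ℝ) / (N + 1), hg01 v i⟩
  have hdist : ∀ (v : ℕ → ℕ) (T : Finset ℕ), dist (g (v + ind T)) (g v) < δ := by
    intro v T
    rw [dist_pi_lt_iff hδ0]
    intro i
    refine lt_of_le_of_lt ?_ hN
    change |((min ((v + ind T) i) (N + 1) : ℕ) : ℝ) / (N + 1) - ((min (v i) (N + 1) : ℕ) : ℝ) / (N + 1)| ≤ _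
    rw [← sub_div, abs_div, abs_of_pos (show (0 : ℝ) < N + 1 by positivity)]
    refine div_le_div_of_nonneg_right ?_ (by positivity)
    have h1 : min (v i) (N + 1) ≤ min ((v + ind T) i) (N + 1) :=
      min_le_min_right _ (by simp [Pi.add_apply])
    have h2 : min ((v + ind T) i) (N + 1) ≤ min (v i) (N + 1) + 1 := by
      have : (v + ind T) i ≤ v i + 1 := by
        simp only [Pi.add_apply, ind]
        split_ifs <;> omega
      omega
    have h3 : ((min (v i) (N + 1) : ℕ) : ℝ) ≤ ((min ((v + ind T) i) (N + 1) : ℕ) : ℝ) := by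
      exact_mod_cast h1
    have h4 : ((min ((v + ind T) i) (N + 1) : ℕ) : ℝ) ≤ ((min (v i) (N + 1) : ℕ) : ℝ) + 1 := by
      exact_mod_cast h2
    rw [abs_le]
    constructor <;> linarith
  let a : ℕ → (ℕ → ℕ) → ZMod 2 := fun k v =>
    if g v ∈ Metric.thickening δ (ψ ⁻¹' E k) then 0 else 1
  have ha0 : ∀ k, k < M → ∀ v : ℕ → ℕ, v k = 0 → a k v = 0 := by
    intro k hk v hvk
    simp only [a]
    rw [if_pos]
    refine Metric.self_subset_thickening hδ0 _ ?_
    obtain ⟨-, -, -, d, -⟩ := ha k (Nat.zero_le _) hk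
    refine d _ (mem_univ _) ?_
    simp only [ψ, g, hk, dif_pos]
    ext
    simp [hvk]
  have ha1 : ∀ k, k < M → ∀ v : ℕ → ℕ, v k = N + 1 → a k v = 1 := by
    intro k hk v hvk
    simp only [a]
    rw [if_neg]
    intro hmem
    refine Set.disjoint_left.1 (hδ k (Finset.mem_range.2 hk)) hmem ?_
    refine Metric.self_subset_thickening hδ0 _ ?_
    obtain ⟨-, -, -, -, e⟩ := ha k (Nat.zero_le _) hk
    refine e _ (mem_univ _) ?_
    simp only [ψ, g, hk, dif_pos]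
    ext
    simp only [hvk, min_self]
    push_cast
    rw [div_self (by positivity)]
  obtain ⟨v, hv⟩ := discrete_miranda (N + 1) M a ha0 ha1
  -- the grid point `g v` lies in some `E i` or `E' i`
  obtain ⟨i, -, hi, h⟩ := hb (ψ (g v)) (mem_univ _)
  have hd := hδ i (Finset.mem_range.2 hi)
  rcases h with h | h
  · obtain ⟨T, -, hT⟩ := hv i hi 0
    apply hT
    simp only [a]
    rw [if_pos]
    rw [Metric.mem_thickening_iff]
    exact ⟨g v, h, hdist v T⟩
  · obtain ⟨T, -, hT⟩ := hv i hi 1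
    apply hT
    simp only [a]
    rw [if_neg]
    intro hmem
    refine Set.disjoint_left.1 hd hmem ?_
    rw [Metric.mem_thickening_iff]
    exact ⟨g v, h, hdist v T⟩

end Pool.Agent.Helper63
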