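import Pool.Agent.Helper63.Star

/-!
Existence of the well-ordered set `W` of type `ω₁`.
-/

set_option autoImplicit false

open Set Cardinal Ordinal

namespace Pool.Agent.Helper63

theorem exists_W : ∃ (W : Type) (_ : LinearOrder W) (_ : WellFoundedLT W) (f : W → ℝ),
    Function.Injective f ∧ CB W := by
  have hcard : #(ℵ₁ : Cardinal.{0}).ord.ToType ≤ #ℝ := by
    rw [mk_ord_toType, Cardinal.mk_real]
    exact aleph_one_le_continuum
  obtain ⟨g⟩ := Cardinal.le_def _ _ |>.1 hcard
  refine ⟨(ℵ₁ : Cardinal.{0}).ord.ToType, inferInstance, inferInstance, g, g.injective, ?_⟩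
  intro s hs
  have hIio : ∀ a : (ℵ₁ : Cardinal.{0}).ord.ToType, (Iio a).Countable := by
    intro a
    have : #(Iio a) < ℵ₁ := by
      have := mk_Iio_lt a (by simp)
      rwa [mk_ord_toType] at this
    rw [← Cardinal.le_aleph0_iff_set_countable]
    exact Order.lt_succ_iff.1 (this.trans_eq succ_aleph0.symm)
  have hIic : ∀ a : (ℵ₁ : Cardinal.{0}).ord.ToType, (Iic a).Countable := by
    intro a
    rw [← Iio_insert]
    exact (hIio a).insert a
  have hU : (⋃ a ∈ s, Iic a).Countable := hs.biUnion fun a _ => hIic a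
  by_contra hcon
  push Not at hcon
  have : (⋃ a ∈ s, Iic a) = Set.univ := by
    refine eq_univ_of_forall fun b => ?_
    obtain ⟨a, ha, hab⟩ := hcon b
    exact mem_biUnion ha hab
  rw [this, ← Cardinal.le_aleph0_iff_set_countable, mk_univ, mk_ord_toType] at hU
  exact absurd hU (not_le.2 aleph0_lt_aleph_one)

end Pool.Agent.Helper63
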