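import Pool.Agent.Helper63.SpaceX
import Pool.Agent.Helper63.Omega

/-!
The space `X` has no transfinite dimension.
-/

set_option autoImplicit false
set_option linter.unusedSectionVars false

open Set Filter Topology

namespace Pool.Agent.Helper63

section Words

variable {P : Type}

/-- sequences with a given initial word -/
def app (k : ℕ) (w p : ℕ → P) : ℕ → P := fun i => if i < k then w i else p (i - k)

theorem app_lt {k : ℕ} {w p : ℕ → P} {i : ℕ} (h : i < k) : app k w p i = w i := if_pos h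

theorem app_self {k : ℕ} {w p : ℕ → P} : app k w p k = p 0 := by simp [app]

theorem app_cons (k : ℕ) (w : ℕ → P) (b : P) (p : ℕ → P) :
    app k w (cons b p) = app (k + 1) (Function.update w k b) p := by
  funext i
  rcases lt_trichotomy i k with hi | rfl | hi
  · have h1 : i < k + 1 := by omega
    simp [app, hi, h1, hi.ne]
  · simp [app]
  · obtain ⟨n, rfl⟩ : ∃ n, i = k + n + 1 := ⟨i - k - 1, by omega⟩
    have h1 : ¬ (k + n + 1 < k + 1) := by omega
    have h2 : ¬ (k + n + 1 < k) := by omega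
    have h3 : k + n + 1 - k = n + 1 := by omega
    have h4 : k + n + 1 - (k + 1) = n := by omega
    simp [app, h1, h2, h3, h4]

/-- the section of `F` at a word -/
def secw (F : Set (ℕ → P)) (k : ℕ) (w : ℕ → P) : Set (ℕ → P) := {p | app k w p ∈ F}

theorem mem_secw {F : Set (ℕ → P)} {k : ℕ} {w p : ℕ → P} : p ∈ secw F k w ↔ app k w p ∈ F := Iff.rfl

theorem sec_secw (F : Set (ℕ → P)) (k : ℕ) (w : ℕ → P) (b : P) :
    sec (secw F k w) b = secw F (k + 1) (Function.update w k b) := by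
  ext p
  rw [mem_sec, mem_secw, mem_secw, app_cons]

theorem secw_zero (F : Set (ℕ → P)) (w : ℕ → P) : secw F 0 w = F := by
  ext p
  rw [mem_secw]
  have : app 0 w p = p := by
    funext i
    simp [app]
  rw [this]

theorem continuous_app [TopologicalSpace P] (k : ℕ) (w : ℕ → P) : Continuous (app k w) := by
  refine continuous_pi fun i => ?_
  by_cases h : i < k
  · simp only [app, h, if_true]
    exact continuous_const
  · simp only [app, h, if_false]
    exact continuous_apply _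

theorem isClosed_secw [TopologicalSpace P] {F : Set (ℕ → P)} (hF : IsClosed F) (k : ℕ)
    (w : ℕ → P) : IsClosed (secw F k w) := hF.preimage (continuous_app k w)

end Words

section Main

variable {W : Type} [LinearOrder W] {f : W → ℝ}

theorem exists_common [Nonempty W] (k : ℕ) (w : ℕ → PSp f)
    (hw : ∀ i, i < k → ∃ γ, (w i).u γ = true) : ∃ γ, ∀ i, i < k → (w i).u γ = true := by
  induction k with
  | zero => exact ⟨Classical.arbitrary W, fun i hi => absurd hi (Nat.not_lt_zero i)⟩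
  | succ k ih =>
    obtain ⟨γ, hγ⟩ := ih fun i hi => hw i (by omega)
    obtain ⟨γ', hγ'⟩ := hw k (by omega)
    refine ⟨max γ γ', fun i hi => ?_⟩
    rcases Nat.lt_succ_iff_lt_or_eq.1 hi with hi | rfl
    · exact u_mono _ (le_max_left _ _) (hγ i hi)
    · exact u_mono _ (le_max_right _ _) hγ'

theorem Prx_app (k : ℕ) (w p : ℕ → PSp f) (t : unitInterval) :
    Prx (app k w (cons (jpt f t) p)) = Prx (app k w (fun _ => jpt f t)) := by
  refine Subtype.ext ?_
  refine Pr_congr (k := k) ?_ ?_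
  · intro i hi
    rcases hi.lt_or_eq with hi | rfl
    · rw [app_lt hi, app_lt hi]
    · rw [app_self, app_self, cons_zero]
  · intro γ
    rw [app_self, cons_zero, jpt_u]

theorem step [WellFoundedLT W] [Nonempty W] (hW : CB W) (hf : Function.Injective f)
    (𝒮 : Set (Set (XSp f))) (g : Set (XSp f) → Ordinal.{0})
    (h : ∀ S ∈ 𝒮, ∀ x ∈ S, ∀ V : Set (XSp f), IsOpen V → x ∈ V →
          ∃ U : Set (XSp f), IsOpen U ∧ x ∈ U ∧ U ∩ S ⊆ V ∧
            ((S ∩ closure (U ∩ S)) \ U) ∈ 𝒮 ∧ g ((S ∩ closure (U ∩ S)) \ U) < g S)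
    (S : Set (XSp f)) (hS : S ∈ 𝒮) (hSc : IsClosed S) (m k : ℕ) (w : ℕ → PSp f)
    (hw : ∀ i, i < k → ∃ γ, (w i).u γ = true)
    (IH : ∀ L ∈ 𝒮, g L < g S → IsClosed L → ∀ m, ∃ M,
      Wd m M (star (curves hW hf) (secw (Prx ⁻¹' L) k w)))
    (hfib : ∀ x0 : unitInterval, ∃ M,
      Wd m M (star (curves hW hf) (secw (Prx ⁻¹' S) k w) ∩ {x | x 0 = x0})) :
    ∃ M, Wd m M (star (curves hW hf) (secw (Prx ⁻¹' S) k w)) := by
  have hcl : ∀ L : Set (XSp f), IsClosed L → IsClosed (secw (Prx ⁻¹' L) k w) := fun L hL =>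
    isClosed_secw (hL.preimage continuous_Prx) k w
  have hcl' : ∀ L : Set (XSp f), IsClosed L →
      IsClosed (star (curves hW hf) (secw (Prx ⁻¹' L) k w)) := fun L hL =>
    isClosed_star _ hW (hcl L hL)
  refine Wd.local_global (hcl' S hSc) ?_
  intro z hz
  obtain ⟨M0, hM0⟩ := hfib (z 0)
  have hfc : IsClosed {x : Q | x 0 = z 0} := isClosed_eq (continuous_apply 0) continuous_const
  obtain ⟨O, hO, hZO, hWO⟩ := hM0.exists_open (hcl' S hSc) ((hcl' S hSc).inter hfc)
  -- a closed neighbourhood `N` of `z 0`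
  have himc : IsClosed ((fun x : Q => x 0) ''
      (star (curves hW hf) (secw (Prx ⁻¹' S) k w) \ O)) :=
    (((hcl' S hSc).sdiff hO).isCompact.image (continuous_apply 0)).isClosed
  have hz0 : z 0 ∉ ((fun x : Q => x 0) ''
      (star (curves hW hf) (secw (Prx ⁻¹' S) k w) \ O)) := by
    rintro ⟨x, hx, hx0⟩
    exact hx.2 (hZO ⟨hx.1, hx0⟩)
  obtain ⟨N, hN, hNc, hNsub⟩ := exists_mem_nhds_isClosed_subset (himc.isOpen_compl.mem_nhds hz0)
  have hNO : ∀ x ∈ star (curves hW hf) (secw (Prx ⁻¹' S) k w), x 0 ∈ N → x ∈ O := by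
    intro x hx hxN
    by_contra hcon
    exact hNsub hxN ⟨x, ⟨hx, hcon⟩, rfl⟩
  obtain ⟨γ, hγ⟩ := exists_common k w hw
  -- evaluation of the coordinate `(k, γ)`
  have hval : ∀ t : unitInterval,
      cndz (Prx (app k w (fun _ => jpt f t))).1 k γ ∧
        ((Prx (app k w (fun _ => jpt f t))).1 k γ).x = t := by
    intro t
    have hc : cnd (app k w (fun _ => jpt f t)) k γ := by
      intro i hi
      rw [app_lt hi]
      exact hγ i hi
    refine ⟨cndz_Pr.2 hc, ?_⟩
    have : (Prx (app k w (fun _ => jpt f t))).1 k γ = jpt f t := by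
      have h1 : (Prx (app k w (fun _ => jpt f t))).1 k γ = app k w (fun _ => jpt f t) k := Pr_pos hc
      rw [h1, app_self]
    rw [this, jpt_x]
  have hstar : ∀ L : Set (XSp f), IsClosed L → ∀ x ∈ star (curves hW hf) (secw (Prx ⁻¹' L) k w),
      Prx (app k w (fun _ => jpt f (x 0))) ∈ L := by
    intro L hL x hx
    obtain ⟨p, hp⟩ := exists_of_mem_star _ (hcl L hL) hx
    have hp' : Prx (app k w (cons (jpt f (x 0)) p)) ∈ L := hp
    rwa [Prx_app] at hp'
  have hK : IsClopen {z : XSp f | cndz z.1 k γ} :=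
    (isClopen_cndz k γ).preimage continuous_subtype_val
  have hxc : Continuous (fun z : XSp f => (z.1 k γ).x) :=
    PSp.continuous_x.comp (continuous_coord k γ)
  set V : Set (XSp f) := {z | cndz z.1 k γ} ∩ {z | (z.1 k γ).x ∈ interior N} with hV
  have hVo : IsOpen V := hK.isOpen.inter (isOpen_interior.preimage hxc)
  set a0 : XSp f := Prx (app k w (fun _ => jpt f (z 0))) with ha0
  have ha0S : a0 ∈ S := hstar S hSc z hz
  have ha0V : a0 ∈ V := by
    refine ⟨(hval (z 0)).1, ?_⟩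
    change (a0.1 k γ).x ∈ interior N
    rw [(hval (z 0)).2]
    exact mem_interior_iff_mem_nhds.2 hN
  obtain ⟨U, hU, ha0U, hUV, hL, hgL⟩ := h S hS a0 ha0S V hVo ha0V
  have hS1S : closure (U ∩ S) ⊆ S := closure_minimal inter_subset_right hSc
  have hLc : IsClosed ((S ∩ closure (U ∩ S)) \ U) := (hSc.inter isClosed_closure).sdiff hU
  have hS2c : IsClosed (S \ U) := hSc.sdiff hU
  have hS12 : S = closure (U ∩ S) ∪ (S \ U) := by
    refine Subset.antisymm (fun x hx => ?_) (union_subset hS1S sdiff_subset)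
    by_cases hxU : x ∈ U
    · exact Or.inl (subset_closure ⟨hxU, hx⟩)
    · exact Or.inr ⟨hx, hxU⟩
  refine ⟨star (curves hW hf) (secw (Prx ⁻¹' (closure (U ∩ S))) k w),
    star (curves hW hf) (secw (Prx ⁻¹' (S \ U)) k w), hcl' _ isClosed_closure, hcl' _ hS2c,
    ?_, ?_, ⟨M0, hWO.mono ?_⟩, ?_⟩
  · rw [← star_union]
    have : secw (Prx ⁻¹' (closure (U ∩ S))) k w ∪ secw (Prx ⁻¹' (S \ U)) k w =
        secw (Prx ⁻¹' S) k w := by
      conv_rhs => rw [hS12]
      rfl
    rw [this]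
  · intro hz2
    exact (hstar _ hS2c z hz2).2 ha0U
  · intro x hx
    have hxZ : x ∈ star (curves hW hf) (secw (Prx ⁻¹' S) k w) := by
      refine star_mono _ ?_ hx
      exact fun p hp => hS1S hp
    refine ⟨hxZ, hNO x hxZ ?_⟩
    have hx1 := hstar _ isClosed_closure x hx
    have hsub : closure (U ∩ S) ⊆ {z | (z.1 k γ).x ∈ N} := by
      refine closure_minimal (fun y hy => ?_) (hNc.preimage hxc)
      exact (interior_subset : interior N ⊆ N) (hUV hy).2
    have := hsub hx1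
    simp only [mem_ofPred_eq] at this
    rwa [(hval (x 0)).2] at this
  · intro M
    obtain ⟨M', hM'⟩ := IH _ hL hgL hLc M
    refine ⟨max M M', le_max_left _ _, (hM'.mono_right (le_max_right _ _)).mono ?_⟩
    refine (star_inter _ hW (hcl _ isClosed_closure) (hcl _ hS2c)).trans (star_mono _ ?_)
    rintro p ⟨hp1, hp2⟩
    exact ⟨⟨hS1S hp1, hp1⟩, hp2.2⟩

theorem main_claim [WellFoundedLT W] [Nonempty W] (hW : CB W) (hf : Function.Injective f)
    (𝒮 : Set (Set (XSp f))) (g : Set (XSp f) → Ordinal.{0})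
    (h : ∀ S ∈ 𝒮, ∀ x ∈ S, ∀ V : Set (XSp f), IsOpen V → x ∈ V →
          ∃ U : Set (XSp f), IsOpen U ∧ x ∈ U ∧ U ∩ S ⊆ V ∧
            ((S ∩ closure (U ∩ S)) \ U) ∈ 𝒮 ∧ g ((S ∩ closure (U ∩ S)) \ U) < g S)
    (o : Ordinal.{0}) : ∀ S ∈ 𝒮, g S = o → IsClosed S → ∀ (m k : ℕ) (w : ℕ → PSp f),
      (∀ i, i < k → ∃ γ, (w i).u γ = true) →
      ∃ M, Wd m M (star (curves hW hf) (secw (Prx ⁻¹' S) k w)) := by
  induction o using WellFoundedLT.induction with
  | _ o IH =>
    intro S hS hgS hSc m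
    have IH' : ∀ (k : ℕ) (w : ℕ → PSp f), (∀ i, i < k → ∃ γ, (w i).u γ = true) →
        ∀ L ∈ 𝒮, g L < g S → IsClosed L → ∀ m, ∃ M,
        Wd m M (star (curves hW hf) (secw (Prx ⁻¹' L) k w)) := by
      intro k w hw L hL hgL hLc m
      exact IH (g L) (hgS ▸ hgL) L hL rfl hLc m k w hw
    induction m with
    | zero =>
      intro k w hw
      refine step hW hf 𝒮 g h S hS hSc 0 k w hw (IH' k w hw) fun x0 => ⟨1, ?_⟩
      exact Wd.fibre_zero x0 _ fun z hz => hz.2
    | succ m ihm =>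
      intro k w hw
      refine step hW hf 𝒮 g h S hS hSc (m + 1) k w hw (IH' k w hw) fun x0 => ?_
      obtain ⟨β, hβ⟩ := exists_section (curves hW hf) hW
        (isClosed_secw (hSc.preimage continuous_Prx) k w) x0
      have hw' : ∀ i, i < k + 1 → ∃ γ,
          (Function.update w k ((curves hW hf).b β x0) i).u γ = true := by
        intro i hi
        rcases Nat.lt_succ_iff_lt_or_eq.1 hi with hi | rfl
        · rw [Function.update_of_ne hi.ne]
          exact hw i hi
        · rw [Function.update_self]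
          exact ⟨β, bpt_u_self β x0⟩
      obtain ⟨M, hM⟩ := ihm (k + 1) _ hw'
      refine ⟨M + 1, hM.shift ?_⟩
      rintro x ⟨hx, hx0⟩
      rw [← sec_secw]
      exact hβ x hx hx0

end Main

/-- the counterexample -/
theorem counterexample : ∃ (X : Type) (_ : TopologicalSpace X) (_ : CompactSpace X) (_ : T2Space X)
    (A : ℕ → Set X), (⋃ n, A n) = Set.univ ∧
      (∀ n, ∃ (𝒮 : Set (Set X)) (f : Set X → Ordinal.{0}), A n ∈ 𝒮 ∧
        ∀ S ∈ 𝒮, ∀ x ∈ S, ∀ V : Set X, IsOpen V → x ∈ V →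
          ∃ U : Set X, IsOpen U ∧ x ∈ U ∧ U ∩ S ⊆ V ∧
            ((S ∩ closure (U ∩ S)) \ U) ∈ 𝒮 ∧ f ((S ∩ closure (U ∩ S)) \ U) < f S) ∧
      ¬ ∃ (𝒮 : Set (Set X)) (f : Set X → Ordinal.{0}), (Set.univ : Set X) ∈ 𝒮 ∧
        ∀ S ∈ 𝒮, ∀ x ∈ S, ∀ V : Set X, IsOpen V → x ∈ V →
          ∃ U : Set X, IsOpen U ∧ x ∈ U ∧ U ∩ S ⊆ V ∧
            ((S ∩ closure (U ∩ S)) \ U) ∈ 𝒮 ∧ f ((S ∩ closure (U ∩ S)) \ U) < f S := by
  obtain ⟨W, _, _, f, hf, hW⟩ := exists_W
  obtain ⟨w0, -⟩ := hW ∅ countable_empty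
  have : Nonempty W := ⟨w0⟩
  obtain ⟨e, he⟩ := exists_surjective_nat (Option (ℕ × Bool))
  let A' : Option (ℕ × Bool) → Set (XSp f) := fun o => match o with
    | none => pInf f
    | some (n, true) => pFin f n (range ((↑) : ℚ → ℝ))
    | some (n, false) => pFin f n {x | Irrational x}
  refine ⟨XSp f, inferInstance, inferInstance, inferInstance, fun n => A' (e n), ?_, ?_, ?_⟩
  · refine eq_univ_of_forall fun z => ?_
    rw [mem_iUnion]
    rcases cover z with h | ⟨n, h | h⟩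
    · obtain ⟨i, hi⟩ := he none
      exact ⟨i, by simpa only [hi] using h⟩
    · obtain ⟨i, hi⟩ := he (some (n, true))
      exact ⟨i, by simpa only [hi] using h⟩
    · obtain ⟨i, hi⟩ := he (some (n, false))
      exact ⟨i, by simpa only [hi] using h⟩
  · intro n
    apply trind_of_zd
    change ∀ a ∈ A' (e n), zdFilter (A' (e n)) a ≤ 𝓝 a
    rcases e n with _ | ⟨n, _ | _⟩
    · exact zd_pInf
    · refine zd_pFin n ?_
      refine Dense.mono ?_ (Rat.denseRange_cast (𝕜 := ℝ))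
      rintro _ ⟨q, rfl⟩
      simp
    · refine zd_pFin n ?_
      exact dense_irrational
  · rintro ⟨𝒮, g, hu, h⟩
    obtain ⟨M, hM⟩ := main_claim hW hf 𝒮 g h _ univ hu rfl isClosed_univ 0 0 (fun _ => jpt f 0)
      (fun i hi => absurd hi (Nat.not_lt_zero i))
    have : Nonempty (PSp f) := ⟨jpt f 0⟩
    rw [preimage_univ, secw_zero, star_univ] at hM
    exact not_Wd_univ M hM

end Pool.Agent.Helper63
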