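import Pool.Agent.Helper63.Star

/-!
The compact space `P = B ∪ J` used in the counterexample.
-/

set_option autoImplicit false
set_option linter.unusedSectionVars false

open Set Filter Topology

namespace Pool.Agent.Helper63

section Space

variable {W : Type} [LinearOrder W]

/-- location of an index -/
noncomputable def loc (f : W → ℝ) (i : W × ℚ) : ℝ := f i.1 + i.2

/-- the compact set `P` -/
def PSet (f : W → ℝ) : Set ((W → Bool) × unitInterval × (W × ℚ → Bool)) :=
  {p | (∀ γ γ', γ ≤ γ' → p.1 γ = true → p.1 γ' = true) ∧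
       (∀ i : W × ℚ, p.1 i.1 = false → p.2.2 i = false) ∧
       (∀ i : W × ℚ, p.1 i.1 = true → (p.2.1 : ℝ) < loc f i → p.2.2 i = true) ∧
       (∀ i : W × ℚ, p.1 i.1 = true → loc f i < (p.2.1 : ℝ) → p.2.2 i = false)}

theorem isClopen_eq_bool {X : Type*} [TopologicalSpace X] {g : X → Bool} (hg : Continuous g)
    (v : Bool) : IsClopen {x | g x = v} :=
  (isClopen_discrete {v}).preimage hg

theorem isClosed_PSet (f : W → ℝ) : IsClosed (PSet f) := by
  have hu : ∀ γ, Continuous (fun p : (W → Bool) × unitInterval × (W × ℚ → Bool) => p.1 γ) :=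
    fun γ => (continuous_apply γ).comp continuous_fst
  have he : ∀ i, Continuous (fun p : (W → Bool) × unitInterval × (W × ℚ → Bool) => p.2.2 i) :=
    fun i => (continuous_apply i).comp (continuous_snd.comp continuous_snd)
  have hx : Continuous (fun p : (W → Bool) × unitInterval × (W × ℚ → Bool) => (p.2.1 : ℝ)) :=
    continuous_subtype_val.comp (continuous_fst.comp continuous_snd)
  have h1 : IsClosed {p : (W → Bool) × unitInterval × (W × ℚ → Bool) |
      ∀ γ γ', γ ≤ γ' → p.1 γ = true → p.1 γ' = true} := by
    simp only [ofPred_forall]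
    refine isClosed_iInter fun γ => isClosed_iInter fun γ' => isClosed_iInter fun _ => ?_
    exact isClosed_imp (isClopen_eq_bool (hu γ) true).isOpen (isClopen_eq_bool (hu γ') true).isClosed
  have h2 : IsClosed {p : (W → Bool) × unitInterval × (W × ℚ → Bool) |
      ∀ i : W × ℚ, p.1 i.1 = false → p.2.2 i = false} := by
    simp only [ofPred_forall]
    refine isClosed_iInter fun i => ?_
    exact isClosed_imp (isClopen_eq_bool (hu i.1) false).isOpen (isClopen_eq_bool (he i) false).isClosed
  have h3 : IsClosed {p : (W → Bool) × unitInterval × (W × ℚ → Bool) |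
      ∀ i : W × ℚ, p.1 i.1 = true → (p.2.1 : ℝ) < loc f i → p.2.2 i = true} := by
    simp only [ofPred_forall]
    refine isClosed_iInter fun i => ?_
    refine isClosed_imp (isClopen_eq_bool (hu i.1) true).isOpen ?_
    exact isClosed_imp (isOpen_lt hx continuous_const) (isClopen_eq_bool (he i) true).isClosed
  have h4 : IsClosed {p : (W → Bool) × unitInterval × (W × ℚ → Bool) |
      ∀ i : W × ℚ, p.1 i.1 = true → loc f i < (p.2.1 : ℝ) → p.2.2 i = false} := by
    simp only [ofPred_forall]
    refine isClosed_iInter fun i => ?_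
    refine isClosed_imp (isClopen_eq_bool (hu i.1) true).isOpen ?_
    exact isClosed_imp (isOpen_lt continuous_const hx) (isClopen_eq_bool (he i) false).isClosed
  exact h1.inter (h2.inter (h3.inter h4))

/-- the compact space `P` -/
abbrev PSp (f : W → ℝ) : Type := PSet f

variable {f : W → ℝ}

instance : CompactSpace (PSp f) := isCompact_iff_compactSpace.1 (isClosed_PSet f).isCompact

/-- first coordinate -/
def PSp.u (p : PSp f) : W → Bool := p.1.1

/-- second coordinate -/
def PSp.x (p : PSp f) : unitInterval := p.1.2.1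

/-- third coordinate -/
def PSp.e (p : PSp f) : W × ℚ → Bool := p.1.2.2

theorem PSp.continuous_u (γ : W) : Continuous (fun p : PSp f => p.u γ) :=
  (continuous_apply γ).comp (continuous_fst.comp continuous_subtype_val)

theorem PSp.continuous_x : Continuous (fun p : PSp f => p.x) :=
  continuous_fst.comp (continuous_snd.comp continuous_subtype_val)

theorem PSp.continuous_e (i : W × ℚ) : Continuous (fun p : PSp f => p.e i) :=
  (continuous_apply i).comp (continuous_snd.comp (continuous_snd.comp continuous_subtype_val))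

theorem PSp.tendsto_iff {α : Type*} {l : Filter α} {g : α → PSp f} {p : PSp f} :
    Tendsto g l (𝓝 p) ↔ (∀ γ, Tendsto (fun a => (g a).u γ) l (𝓝 (p.u γ))) ∧
      Tendsto (fun a => (g a).x) l (𝓝 p.x) ∧ ∀ i, Tendsto (fun a => (g a).e i) l (𝓝 (p.e i)) := by
  constructor
  · intro h
    exact ⟨fun γ => (PSp.continuous_u γ).continuousAt.tendsto.comp h,
      PSp.continuous_x.continuousAt.tendsto.comp h,
      fun i => (PSp.continuous_e i).continuousAt.tendsto.comp h⟩
  · rintro ⟨h1, h2, h3⟩
    rw [tendsto_subtype_rng]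
    exact (tendsto_pi_nhds.2 h1).prodMk_nhds (h2.prodMk_nhds (tendsto_pi_nhds.2 h3))

theorem PSp.ext' {p q : PSp f} (h1 : p.u = q.u) (h2 : p.x = q.x) (h3 : p.e = q.e) : p = q := by
  apply Subtype.ext
  exact Prod.ext h1 (Prod.ext h2 h3)

/-- the point of `B` on the curve number `x` at time `β` -/
noncomputable def bpt (f : W → ℝ) (β : W) (x : unitInterval) : PSp f :=
  ⟨(fun γ => decide (β ≤ γ), x, fun i => decide (β ≤ i.1 ∧ (x : ℝ) < loc f i)), by
    refine ⟨fun γ γ' h h' => ?_, fun i h => ?_, fun i h h' => ?_, fun i h h' => ?_⟩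
    · simp only [decide_eq_true_eq] at h' ⊢
      exact h'.trans h
    · simp only [decide_eq_false_iff_not] at h ⊢
      exact fun h' => h h'.1
    · simp only [decide_eq_true_eq] at h ⊢
      exact ⟨h, h'⟩
    · simp only [decide_eq_false_iff_not]
      exact fun h'' => absurd h''.2 (not_lt.2 h'.le)⟩

/-- the point of `J` number `x` -/
def jpt (f : W → ℝ) (x : unitInterval) : PSp f :=
  ⟨(fun _ => false, x, fun _ => false), by
    refine ⟨fun γ γ' h h' => ?_, fun i h => rfl, fun i h h' => ?_, fun i h h' => rfl⟩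
    · exact absurd h' Bool.false_ne_true
    · exact absurd h Bool.false_ne_true⟩

@[simp] theorem jpt_u (x : unitInterval) (γ : W) : (jpt f x).u γ = false := rfl
@[simp] theorem jpt_x (x : unitInterval) : (jpt f x).x = x := rfl
@[simp] theorem bpt_x (β : W) (x : unitInterval) : (bpt f β x).x = x := rfl
theorem bpt_u (β : W) (x : unitInterval) (γ : W) : (bpt f β x).u γ = decide (β ≤ γ) := rfl
theorem bpt_e (β : W) (x : unitInterval) (i : W × ℚ) :
    (bpt f β x).e i = decide (β ≤ i.1 ∧ (x : ℝ) < loc f i) := rfl
@[simp] theorem jpt_e (x : unitInterval) (i : W × ℚ) : (jpt f x).e i = false := rfl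

theorem bpt_u_self (β : W) (x : unitInterval) : (bpt f β x).u β = true := by
  simp [bpt_u]

/-- a point with `u = 0` is in `J` -/
theorem eq_jpt {p : PSp f} (h : ∀ γ, p.u γ = false) : p = jpt f p.x := by
  refine PSp.ext' ?_ rfl ?_
  · funext γ
    rw [h γ]
    rfl
  · funext i
    rw [jpt_e]
    exact p.2.2.1 i (h i.1)

theorem u_mono (p : PSp f) {γ γ' : W} (h : γ ≤ γ') (h' : p.u γ = true) : p.u γ' = true :=
  p.2.1 γ γ' h h'

theorem tendsto_bool {α : Type*} {l : Filter α} {g : α → Bool} {v : Bool}
    (h : ∀ᶠ a in l, g a = v) : Tendsto g l (𝓝 v) :=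
  tendsto_nhds_of_eventually_eq h

/-- the curves -/
noncomputable def curves (hW : CB W) (hf : Function.Injective f) : Curves W (PSp f) where
  b := bpt f
  j := jpt f
  b1 := by
    intro x g hg β hβ
    rw [PSp.tendsto_iff]
    refine ⟨fun γ => ?_, tendsto_const_nhds, fun i => ?_⟩
    · simp only [bpt_u]
      by_cases h : β ≤ γ
      · refine tendsto_bool (Eventually.of_forall fun k => ?_)
        simp [h, (hβ.1 ⟨k, rfl⟩ : g k ≤ β).trans h]
      · have : ∃ k, γ < g k := by
          by_contra hcon
          push Not at hcon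
          exact h (hβ.2 (by rintro _ ⟨k, rfl⟩; exact hcon k))
        obtain ⟨k, hk⟩ := this
        refine tendsto_bool ?_
        filter_upwards [eventually_ge_atTop k] with n hn
        have : γ < g n := hk.trans_le (hg.monotone hn)
        simp [h, this]
    · simp only [bpt_e]
      by_cases h : β ≤ i.1
      · refine tendsto_bool (Eventually.of_forall fun k => ?_)
        simp [h, (hβ.1 ⟨k, rfl⟩ : g k ≤ β).trans h]
      · have : ∃ k, i.1 < g k := by
          by_contra hcon
          push Not at hcon
          exact h (hβ.2 (by rintro _ ⟨k, rfl⟩; exact hcon k))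
        obtain ⟨k, hk⟩ := this
        refine tendsto_bool ?_
        filter_upwards [eventually_ge_atTop k] with n hn
        have : i.1 < g n := hk.trans_le (hg.monotone hn)
        simp [h, this]
  b2 := by
    intro x
    have hc : {w : W | ∃ q : ℚ, f w + q = x}.Countable := by
      have : {w : W | ∃ q : ℚ, f w + q = x} = ⋃ q : ℚ, f ⁻¹' {(x : ℝ) - q} := by
        ext w
        simp only [mem_ofPred_eq, mem_iUnion, mem_preimage, mem_singleton_iff]
        refine exists_congr fun q => ?_
        constructor <;> intro h <;> linarith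
      rw [this]
      refine countable_iUnion fun q => ?_
      exact (countable_singleton _).preimage hf
    obtain ⟨β0, hβ0⟩ := hW _ hc
    refine ⟨β0, fun β hβ => ?_⟩
    rw [ContinuousAt, PSp.tendsto_iff]
    refine ⟨fun γ => tendsto_const_nhds, tendsto_id, fun i => ?_⟩
    simp only [bpt_e]
    refine tendsto_bool ?_
    by_cases h : β ≤ i.1
    · have hne : (x : ℝ) ≠ loc f i := by
        intro heq
        have := hβ0 i.1 ⟨i.2, heq.symm⟩
        exact absurd (hβ.trans h) (not_le.2 this)
      rcases lt_or_gt_of_ne hne with hlt | hgt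
      · have : ∀ᶠ y : unitInterval in 𝓝 x, (y : ℝ) < loc f i :=
          (isOpen_lt continuous_subtype_val continuous_const).mem_nhds hlt
        filter_upwards [this] with y hy
        simp [h, hy, hlt]
      · have : ∀ᶠ y : unitInterval in 𝓝 x, loc f i < (y : ℝ) :=
          (isOpen_lt continuous_const continuous_subtype_val).mem_nhds hgt
        filter_upwards [this] with y hy
        simp [h, not_lt.2 hy.le, not_lt.2 hgt.le]
    · exact Eventually.of_forall fun y => by simp [h]
  b3 := by
    intro x O hO
    obtain ⟨w0, -⟩ := hW ∅ countable_empty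
    have : Nonempty W := ⟨w0⟩
    have ht : Tendsto (fun β => bpt f β x) atTop (𝓝 (jpt f x)) := by
      rw [PSp.tendsto_iff]
      refine ⟨fun γ => ?_, tendsto_const_nhds, fun i => ?_⟩
      · obtain ⟨β0, hβ0⟩ := hW {γ} (countable_singleton _)
        refine tendsto_bool ?_
        filter_upwards [eventually_ge_atTop β0] with β hβ
        have : γ < β := (hβ0 γ rfl).trans_le hβ
        simp [bpt_u, this]
      · obtain ⟨β0, hβ0⟩ := hW {i.1} (countable_singleton _)
        refine tendsto_bool ?_
        filter_upwards [eventually_ge_atTop β0] with β hβ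
        have : i.1 < β := (hβ0 i.1 rfl).trans_le hβ
        simp [bpt_e, this]
    exact eventually_atTop.1 (ht hO)

/-- the filter generated by clopen neighbourhoods -/
def clopenFilter {X : Type*} [TopologicalSpace X] (p : X) : Filter X where
  sets := {O | ∃ K, IsClopen K ∧ p ∈ K ∧ K ⊆ O}
  univ_sets := ⟨univ, isClopen_univ, mem_univ _, subset_rfl⟩
  sets_of_superset := by
    rintro O O' ⟨K, h1, h2, h3⟩ h
    exact ⟨K, h1, h2, h3.trans h⟩
  inter_sets := by
    rintro O O' ⟨K, h1, h2, h3⟩ ⟨K', h1', h2', h3'⟩
    exact ⟨K ∩ K', h1.inter h1', ⟨h2, h2'⟩, inter_subset_inter h3 h3'⟩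

theorem mem_clopenFilter {X : Type*} [TopologicalSpace X] {p : X} {O : Set X} :
    O ∈ clopenFilter p ↔ ∃ K, IsClopen K ∧ p ∈ K ∧ K ⊆ O := Iff.rfl

/-- points of `B` have a base of clopen neighbourhoods in `P` -/
theorem clopenFilter_le {p : PSp f} {γ : W} (h : p.u γ = true) : clopenFilter p ≤ 𝓝 p := by
  have : Tendsto id (clopenFilter p) (𝓝 p) := by
    rw [PSp.tendsto_iff]
    refine ⟨fun γ => tendsto_bool ?_, ?_, fun i => tendsto_bool ?_⟩
    · exact ⟨_, isClopen_eq_bool (PSp.continuous_u γ) _, rfl, fun q hq => hq⟩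
    · rw [Metric.tendsto_nhds]
      intro ε hε
      obtain ⟨q1, hq1, hq1'⟩ := exists_rat_btwn (show (p.x : ℝ) - ε - f γ < p.x - f γ by linarith)
      obtain ⟨q2, hq2, hq2'⟩ := exists_rat_btwn (show (p.x : ℝ) - f γ < p.x + ε - f γ by linarith)
      have hc : IsClopen ({q : PSp f | q.u γ = true} ∩ ({q : PSp f | q.e (γ, q1) = false} ∩
          {q : PSp f | q.e (γ, q2) = true})) :=
        (isClopen_eq_bool (PSp.continuous_u γ) _).inter
          ((isClopen_eq_bool (PSp.continuous_e _) _).inter
            (isClopen_eq_bool (PSp.continuous_e _) _))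
      refine ⟨_, hc, ⟨h, ?_, ?_⟩, ?_⟩
      · exact p.2.2.2.2 (γ, q1) h (show f γ + (q1 : ℝ) < (p.x : ℝ) by linarith)
      · exact p.2.2.2.1 (γ, q2) h (show (p.x : ℝ) < f γ + (q2 : ℝ) by linarith)
      · rintro q ⟨hq, hqe1, hqe2⟩
        simp only [mem_ofPred_eq] at hq hqe1 hqe2
        have h1 : f γ + (q1 : ℝ) ≤ (q.x : ℝ) := by
          by_contra hcon
          have := q.2.2.2.1 (γ, q1) hq (not_le.1 hcon)
          have h2 : q.e (γ, q1) = true := this
          rw [h2] at hqe1
          exact absurd hqe1 (by simp)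
        have h2 : (q.x : ℝ) ≤ f γ + (q2 : ℝ) := by
          by_contra hcon
          have := q.2.2.2.2 (γ, q2) hq (not_le.1 hcon)
          have h2 : q.e (γ, q2) = false := this
          rw [h2] at hqe2
          exact absurd hqe2 (by simp)
        simp only [mem_ofPred_eq, id]
        rw [Subtype.dist_eq, Real.dist_eq, abs_lt]
        constructor <;> linarith
    · exact ⟨_, isClopen_eq_bool (PSp.continuous_e i) _, rfl, fun q hq => hq⟩
  exact this

end Space

end Pool.Agent.Helper63
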