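import Pool.Agent.Helper63.Space

/-!
The compact space `X`, a quotient of a countable power of `P`.
-/

set_option autoImplicit false
set_option linter.unusedSectionVars false

open Set Filter Topology

namespace Pool.Agent.Helper63

section ZD

/-- the filter of relatively clopen neighbourhoods -/
def zdFilter {X : Type*} [TopologicalSpace X] (A : Set X) (a : X) : Filter X where
  sets := {O | ∃ U E, IsOpen U ∧ IsClosed E ∧ a ∈ U ∧ U ⊆ E ∧ E ∩ A ⊆ U ∧ U ∩ A ⊆ O}
  univ_sets := ⟨univ, univ, isOpen_univ, isClosed_univ, mem_univ _, subset_rfl,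
    subset_univ _, subset_univ _⟩
  sets_of_superset := by
    rintro O O' ⟨U, E, h1, h2, h3, h4, h5, h6⟩ h
    exact ⟨U, E, h1, h2, h3, h4, h5, h6.trans h⟩
  inter_sets := by
    rintro O O' ⟨U, E, h1, h2, h3, h4, h5, h6⟩ ⟨U', E', h1', h2', h3', h4', h5', h6'⟩
    refine ⟨U ∩ U', E ∩ E', h1.inter h1', h2.inter h2', ⟨h3, h3'⟩, inter_subset_inter h4 h4', ?_, ?_⟩
    · rintro x ⟨⟨hx, hx'⟩, hA⟩
      exact ⟨h5 ⟨hx, hA⟩, h5' ⟨hx', hA⟩⟩
    · rintro x ⟨⟨hx, hx'⟩, hA⟩
      exact ⟨h6 ⟨hx, hA⟩, h6' ⟨hx', hA⟩⟩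

theorem mem_zdFilter {X : Type*} [TopologicalSpace X] {A : Set X} {a : X} {O : Set X} :
    O ∈ zdFilter A a ↔ ∃ U E, IsOpen U ∧ IsClosed E ∧ a ∈ U ∧ U ⊆ E ∧ E ∩ A ⊆ U ∧ U ∩ A ⊆ O :=
  Iff.rfl

theorem self_mem_zdFilter {X : Type*} [TopologicalSpace X] (A : Set X) (a : X) :
    A ∈ zdFilter A a :=
  ⟨univ, univ, isOpen_univ, isClosed_univ, mem_univ _, subset_rfl, subset_univ _, inter_subset_right⟩

theorem clopen_mem_zdFilter {X : Type*} [TopologicalSpace X] {A : Set X} {a : X} {K : Set X}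
    (hK : IsClopen K) (ha : a ∈ K) : K ∈ zdFilter A a :=
  ⟨K, K, hK.isOpen, hK.isClosed, ha, subset_rfl, inter_subset_left, inter_subset_left⟩

theorem zdFilter_le_clopenFilter {X : Type*} [TopologicalSpace X] (A : Set X) (a : X) :
    zdFilter A a ≤ clopenFilter a := by
  rintro O ⟨K, hK, ha, hO⟩
  exact mem_of_superset (clopen_mem_zdFilter hK ha) hO

theorem tendsto_clopenFilter {X Y : Type*} [TopologicalSpace X] [TopologicalSpace Y] {g : X → Y}
    (hg : Continuous g) (a : X) : Tendsto g (clopenFilter a) (clopenFilter (g a)) := by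
  rintro O ⟨K, hK, ha, hO⟩
  exact ⟨g ⁻¹' K, hK.preimage hg, ha, preimage_mono hO⟩

/-- a zero-dimensional subspace has transfinite dimension -/
theorem trind_of_zd {X : Type} [TopologicalSpace X] (A : Set X)
    (h : ∀ a ∈ A, zdFilter A a ≤ 𝓝 a) :
    ∃ (𝒮 : Set (Set X)) (f : Set X → Ordinal.{0}), A ∈ 𝒮 ∧
        ∀ S ∈ 𝒮, ∀ x ∈ S, ∀ V : Set X, IsOpen V → x ∈ V →
          ∃ U : Set X, IsOpen U ∧ x ∈ U ∧ U ∩ S ⊆ V ∧
            ((S ∩ closure (U ∩ S)) \ U) ∈ 𝒮 ∧ f ((S ∩ closure (U ∩ S)) \ U) < f S := by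
  classical
  refine ⟨{A, ∅}, fun S => if S = ∅ then 0 else 1, Or.inl rfl, ?_⟩
  rintro S (rfl | rfl) x hx V hV hxV
  · obtain ⟨U, E, h1, h2, h3, h4, h5, h6⟩ := h x hx (hV.mem_nhds hxV)
    have he : (S ∩ closure (U ∩ S)) \ U = ∅ := by
      rw [eq_empty_iff_forall_notMem]
      rintro y ⟨⟨hy, hy'⟩, hyU⟩
      refine hyU (h5 ⟨?_, hy⟩)
      exact closure_minimal (inter_subset_left.trans h4) h2 hy'
    refine ⟨U, h1, h3, h6, ?_, ?_⟩
    · rw [he]
      exact Or.inr rfl
    · have hne : S ≠ ∅ := by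
        rintro rfl
        exact hx
      simp only [he, if_true, hne, if_false]
      exact zero_lt_one
  · exact absurd hx (by simp)

end ZD

section X

variable {W : Type} [LinearOrder W] {f : W → ℝ}

/-- the condition used in the definition of the quotient -/
def cnd (p : ℕ → PSp f) (k : ℕ) (γ : W) : Prop := ∀ i, i < k → (p i).u γ = true

theorem isClopen_forall_lt {X : Type*} [TopologicalSpace X] {C : ℕ → X → Prop} (k : ℕ)
    (h : ∀ i, IsClopen {p | C i p}) : IsClopen {p | ∀ i, i < k → C i p} := by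
  have : {p | ∀ i, i < k → C i p} = ⋂ i ∈ Finset.range k, {p | C i p} := by
    ext p
    simp
  rw [this]
  exact isClopen_biInter_finset fun i _ => h i

theorem isClopen_cnd (k : ℕ) (γ : W) : IsClopen {p : ℕ → PSp f | cnd p k γ} :=
  isClopen_forall_lt k fun i =>
    isClopen_eq_bool ((PSp.continuous_u γ).comp (continuous_apply i)) true

open scoped Classical in
/-- the quotient map -/
noncomputable def Pr (f : W → ℝ) (p : ℕ → PSp f) : ℕ → W → PSp f := fun k γ =>
  if cnd p k γ then p k else jpt f 0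

theorem Pr_pos {p : ℕ → PSp f} {k : ℕ} {γ : W} (h : cnd p k γ) : Pr f p k γ = p k := if_pos h

theorem Pr_neg {p : ℕ → PSp f} {k : ℕ} {γ : W} (h : ¬ cnd p k γ) : Pr f p k γ = jpt f 0 := if_neg h

theorem continuous_Pr : Continuous (Pr f) := by
  classical
  refine continuous_pi fun k => continuous_pi fun γ => ?_
  unfold Pr
  refine Continuous.if ?_ (continuous_apply k) continuous_const
  intro a ha
  rw [(isClopen_cnd k γ).frontier_eq] at ha
  exact absurd ha (by simp)

/-- the condition, read off in the quotient -/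
def cndz (z : ℕ → W → PSp f) (k : ℕ) (γ : W) : Prop := ∀ i, i < k → (z i γ).u γ = true

theorem isClopen_cndz (k : ℕ) (γ : W) : IsClopen {z : ℕ → W → PSp f | cndz z k γ} :=
  isClopen_forall_lt k fun i =>
    isClopen_eq_bool ((PSp.continuous_u γ).comp ((continuous_apply γ).comp (continuous_apply i))) true

theorem cndz_Pr {p : ℕ → PSp f} {k : ℕ} {γ : W} : cndz (Pr f p) k γ ↔ cnd p k γ := by
  constructor
  · intro h i hi
    have := h i hi
    by_cases hc : cnd p i γ
    · rwa [Pr_pos hc] at this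
    · rw [Pr_neg hc] at this
      exact absurd this (by simp)
  · intro h i hi
    have hc : cnd p i γ := fun j hj => h j (hj.trans hi)
    rw [Pr_pos hc]
    exact h i hi

theorem Pr_congr {p p' : ℕ → PSp f} {k : ℕ} (h : ∀ i, i ≤ k → p i = p' i)
    (hk : ∀ γ, (p k).u γ = false) : Pr f p = Pr f p' := by
  funext n γ
  have hc : cnd p n γ ↔ cnd p' n γ := by
    by_cases hn : n ≤ k
    · constructor
      · intro h1 i hi
        rw [← h i (hi.le.trans hn)]
        exact h1 i hi
      · intro h1 i hi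
        rw [h i (hi.le.trans hn)]
        exact h1 i hi
    · constructor
      · intro h1
        have := h1 k (by omega)
        rw [hk γ] at this
        exact absurd this (by simp)
      · intro h1
        have := h1 k (by omega)
        rw [← h k le_rfl, hk γ] at this
        exact absurd this (by simp)
  by_cases h1 : cnd p n γ
  · rw [Pr_pos h1, Pr_pos (hc.1 h1)]
    by_cases hn : n ≤ k
    · exact h n hn
    · have := h1 k (by omega)
      rw [hk γ] at this
      exact absurd this (by simp)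
  · rw [Pr_neg h1, Pr_neg (fun h2 => h1 (hc.2 h2))]

/-- the space `X` as a set -/
def XSet (f : W → ℝ) : Set (ℕ → W → PSp f) := range (Pr f)

/-- the space `X` -/
abbrev XSp (f : W → ℝ) : Type := XSet f

instance : CompactSpace (XSp f) := isCompact_iff_compactSpace.1 (isCompact_range continuous_Pr)

/-- the quotient map onto `X` -/
noncomputable def Prx (p : ℕ → PSp f) : XSp f := ⟨Pr f p, p, rfl⟩

theorem continuous_Prx : Continuous (Prx (f := f)) := continuous_Pr.subtype_mk _

theorem continuous_coord (k : ℕ) (γ : W) : Continuous (fun z : XSp f => z.1 k γ) :=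
  (continuous_apply γ).comp ((continuous_apply k).comp continuous_subtype_val)

/-- the piece of `X` given by sequences in `B` -/
def pInf (f : W → ℝ) : Set (XSp f) := {z | ∃ p, z = Prx p ∧ ∀ i, ∃ γ, (p i).u γ = true}

/-- the pieces of `X` given by sequences which reach `J` at time `n` -/
def pFin (f : W → ℝ) (n : ℕ) (T : Set ℝ) : Set (XSp f) :=
  {z | ∃ p, z = Prx p ∧ (∀ i, i < n → ∃ γ, (p i).u γ = true) ∧ (∀ γ, (p n).u γ = false) ∧
    ((p n).x : ℝ) ∈ T}

theorem tendsto_coord_of_pos {p : ℕ → PSp f} {k : ℕ} {γ γ' : W} (hc : cnd p k γ)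
    (h : (p k).u γ' = true) (A : Set (XSp f)) :
    Tendsto (fun z : XSp f => z.1 k γ) (zdFilter A (Prx p)) (𝓝 ((Prx p).1 k γ)) := by
  have e : (Prx p).1 k γ = p k := Pr_pos hc
  have h1 := (tendsto_clopenFilter (continuous_coord k γ) (Prx p)).mono_left
    (zdFilter_le_clopenFilter A (Prx p))
  refine h1.mono_right ?_
  rw [e]
  exact clopenFilter_le h

theorem tendsto_coord_of_neg {p : ℕ → PSp f} {k : ℕ} {γ : W} (hc : ¬ cnd p k γ)
    (A : Set (XSp f)) :
    Tendsto (fun z : XSp f => z.1 k γ) (zdFilter A (Prx p)) (𝓝 ((Prx p).1 k γ)) := by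
  have e : (Prx p).1 k γ = jpt f 0 := Pr_neg hc
  rw [e]
  apply tendsto_nhds_of_eventually_eq
  have hK : IsClopen {z : XSp f | ¬ cndz z.1 k γ} :=
    ((isClopen_cndz k γ).compl).preimage continuous_subtype_val
  have hp : Prx p ∈ {z : XSp f | ¬ cndz z.1 k γ} := by
    change ¬ cndz (Pr f p) k γ
    rwa [cndz_Pr]
  refine mem_of_superset (clopen_mem_zdFilter hK hp) ?_
  rintro ⟨z, q, rfl⟩ hz
  have hz' : ¬ cndz (Pr f q) k γ := hz
  rw [cndz_Pr] at hz'
  exact Pr_neg hz'

theorem zd_pInf : ∀ a ∈ pInf f, zdFilter (pInf f) a ≤ 𝓝 a := by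
  rintro a ⟨p, rfl, hp⟩
  have : Tendsto id (zdFilter (pInf f) (Prx p)) (𝓝 (Prx p)) := by
    rw [tendsto_subtype_rng, tendsto_pi_nhds]
    intro k
    rw [tendsto_pi_nhds]
    intro γ
    by_cases hc : cnd p k γ
    · obtain ⟨γ', hγ'⟩ := hp k
      exact tendsto_coord_of_pos hc hγ' _
    · exact tendsto_coord_of_neg hc _
  exact this

theorem zd_pFin (n : ℕ) {T : Set ℝ} (hT : Dense Tᶜ) :
    ∀ a ∈ pFin f n T, zdFilter (pFin f n T) a ≤ 𝓝 a := by
  rintro a ⟨p, rfl, hp, hpn, hpT⟩
  have : Tendsto id (zdFilter (pFin f n T) (Prx p)) (𝓝 (Prx p)) := by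
    rw [tendsto_subtype_rng, tendsto_pi_nhds]
    intro k
    rw [tendsto_pi_nhds]
    intro γ
    by_cases hc : cnd p k γ
    · rcases lt_trichotomy k n with hk | rfl | hk
      · obtain ⟨γ', hγ'⟩ := hp k hk
        exact tendsto_coord_of_pos hc hγ' _
      · -- the interesting coordinate
        have e : (Prx p).1 k γ = p k := Pr_pos hc
        have hcp : cndz (Prx p).1 k γ := cndz_Pr.2 hc
        -- on `A` near `a` the coordinate is in `J`
        have hcK : IsClopen {z : XSp f | cndz z.1 k γ} :=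
          (isClopen_cndz k γ).preimage continuous_subtype_val
        have hJ : ∀ z ∈ pFin f k T, cndz z.1 k γ →
            (∀ γ', (z.1 k γ).u γ' = false) ∧ ((z.1 k γ).x : ℝ) ∈ T := by
          rintro z ⟨q, rfl, hq, hqn, hqT⟩ hz
          have hz' : cnd q k γ := cndz_Pr.1 hz
          have e' : (Prx q).1 k γ = q k := Pr_pos hz'
          rw [e']
          exact ⟨hqn, hqT⟩
        have hev : ∀ᶠ z in zdFilter (pFin f k T) (Prx p),
            z ∈ pFin f k T ∧ cndz z.1 k γ :=
          Filter.inter_mem (self_mem_zdFilter _ _) (clopen_mem_zdFilter hcK hcp)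
        rw [PSp.tendsto_iff]
        refine ⟨fun γ' => ?_, ?_, fun i => ?_⟩
        · refine tendsto_bool ?_
          filter_upwards [hev] with z hz
          rw [e, hpn γ']
          exact (hJ z hz.1 hz.2).1 γ'
        · rw [Metric.tendsto_nhds]
          intro ε hε
          obtain ⟨c1, hc1T, hc1⟩ := hT.exists_between
            (show (((Prx p).1 k γ).x : ℝ) - ε < ((Prx p).1 k γ).x by linarith)
          obtain ⟨c2, hc2T, hc2⟩ := hT.exists_between
            (show (((Prx p).1 k γ).x : ℝ) < ((Prx p).1 k γ).x + ε by linarith)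
          have hxc : Continuous (fun z : XSp f => ((z.1 k γ).x : ℝ)) :=
            continuous_subtype_val.comp (PSp.continuous_x.comp (continuous_coord k γ))
          refine ⟨{z : XSp f | cndz z.1 k γ} ∩
              ({z : XSp f | c1 < ((z.1 k γ).x : ℝ)} ∩ {z : XSp f | ((z.1 k γ).x : ℝ) < c2}),
            {z : XSp f | cndz z.1 k γ} ∩
              ({z : XSp f | c1 ≤ ((z.1 k γ).x : ℝ)} ∩ {z : XSp f | ((z.1 k γ).x : ℝ) ≤ c2}),
            ?_, ?_, ?_, ?_, ?_, ?_⟩
          · exact hcK.isOpen.inter ((isOpen_lt continuous_const hxc).inter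
              (isOpen_lt hxc continuous_const))
          · exact hcK.isClosed.inter ((isClosed_le continuous_const hxc).inter
              (isClosed_le hxc continuous_const))
          · exact ⟨hcp, hc1.2, hc2.1⟩
          · rintro z ⟨h1, h2, h3⟩
            simp only [mem_ofPred_eq] at h2 h3
            exact ⟨h1, h2.le, h3.le⟩
          · rintro z ⟨⟨h1, h2, h3⟩, hz⟩
            have hzT := (hJ z hz h1).2
            simp only [mem_ofPred_eq] at h2 h3
            refine ⟨h1, (lt_of_le_of_ne h2 ?_ : c1 < ((z.1 k γ).x : ℝ)),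
              (lt_of_le_of_ne h3 ?_ : ((z.1 k γ).x : ℝ) < c2)⟩
            · intro h
              rw [← h] at hzT
              exact hc1T hzT
            · intro h
              rw [h] at hzT
              exact hc2T hzT
          · rintro z ⟨⟨h1, h2, h3⟩, hz⟩
            simp only [mem_ofPred_eq, id] at h2 h3 ⊢
            rw [Subtype.dist_eq, Real.dist_eq, abs_lt]
            constructor
            · linarith [hc1.1]
            · linarith [hc2.2]
        · refine tendsto_bool ?_
          filter_upwards [hev] with z hz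
          have h1 : z.1 k γ = jpt f (z.1 k γ).x := eq_jpt (hJ z hz.1 hz.2).1
          change (z.1 k γ).e i = _
          rw [h1, e, eq_jpt hpn]
          rfl
      · have := hc n hk
        rw [hpn γ] at this
        exact absurd this (by simp)
    · exact tendsto_coord_of_neg hc _
  exact this

theorem cover (z : XSp f) : z ∈ pInf f ∨ ∃ n, z ∈ pFin f n (range ((↑) : ℚ → ℝ)) ∨
    z ∈ pFin f n {x | Irrational x} := by
  classical
  obtain ⟨z, p, rfl⟩ := z
  by_cases h : ∀ i, ∃ γ, (p i).u γ = true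
  · exact Or.inl ⟨p, rfl, h⟩
  · push Not at h
    right
    refine ⟨Nat.find h, ?_⟩
    have h1 := Nat.find_spec h
    have h2 : ∀ i, i < Nat.find h → ∃ γ, (p i).u γ = true := by
      intro i hi
      have := Nat.find_min h hi
      push Not at this
      exact this
    have h1' : ∀ γ, (p (Nat.find h)).u γ = false := fun γ => by
      have := h1 γ
      simpa using this
    by_cases hx : ((p (Nat.find h)).x : ℝ) ∈ range ((↑) : ℚ → ℝ)
    · exact Or.inl ⟨p, rfl, h2, h1', hx⟩
    · exact Or.inr ⟨p, rfl, h2, h1', hx⟩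

end X

end Pool.Agent.Helper63
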