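import Pool.Agent.Helper63.Cube

/-!
The star operation: from closed subsets of `P ^ ℕ` to closed subsets of the Hilbert cube.
-/

set_option autoImplicit false
set_option linter.unusedSectionVars false

open Set Filter Topology

namespace Pool.Agent.Helper63

section Club

variable {W : Type} [LinearOrder W]

/-- unbounded subsets -/
def Unb (T : Set W) : Prop := ∀ β0, ∃ β, β0 ≤ β ∧ β ∈ T

/-- subsets closed under suprema of strictly increasing sequences -/
def OCl (T : Set W) : Prop :=
  ∀ f : ℕ → W, StrictMono f → (∀ k, f k ∈ T) → ∀ β, IsLUB (range f) β → β ∈ T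

/-- every countable subset is strictly bounded -/
def CB (W : Type) [LinearOrder W] : Prop := ∀ s : Set W, s.Countable → ∃ b, ∀ a ∈ s, a < b

theorem Unb.mono {T T' : Set W} (h : Unb T) (hT : T ⊆ T') : Unb T' := fun β0 => by
  obtain ⟨β, h1, h2⟩ := h β0
  exact ⟨β, h1, hT h2⟩

theorem Unb.exists_gt (hW : CB W) {T : Set W} (h : Unb T) (β0 : W) : ∃ β, β0 < β ∧ β ∈ T := by
  obtain ⟨b, hb⟩ := hW {β0} (countable_singleton _)
  obtain ⟨β, h1, h2⟩ := h b
  exact ⟨β, (hb β0 rfl).trans_le h1, h2⟩

theorem exists_isLUB [WellFoundedLT W] (hW : CB W) (f : ℕ → W) : ∃ β, IsLUB (range f) β := by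
  obtain ⟨b, hb⟩ := hW (range f) (countable_range f)
  have hne : (upperBounds (range f)).Nonempty := ⟨b, fun a ha => (hb a ha).le⟩
  have hwf : WellFounded ((· < ·) : W → W → Prop) := wellFounded_lt
  refine ⟨hwf.min _ hne, hwf.min_mem _ hne, fun c hc => ?_⟩
  exact not_lt.1 (hwf.not_lt_min _ hc)

theorem Unb.iInter [WellFoundedLT W] (hW : CB W) {T : ℕ → Set W} (h : ∀ n, Unb (T n))
    (hc : ∀ n, OCl (T n)) : Unb (⋂ n, T n) := by
  intro β0
  have hnext : ∀ (β : W) (n : ℕ), ∃ β', β < β' ∧ β' ∈ T n := fun β n => (h n).exists_gt hW β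
  choose next hlt hmem using hnext
  obtain ⟨g, hg0, hg⟩ : ∃ g : ℕ → W, g 0 = β0 ∧ ∀ k, g (k + 1) = next (g k) (Nat.unpair k).1 :=
    ⟨fun k => Nat.rec β0 (fun k β => next β (Nat.unpair k).1) k, rfl, fun k => rfl⟩
  have hgm : StrictMono g := strictMono_nat_of_lt_succ fun k => by rw [hg]; exact hlt _ _
  obtain ⟨β, hβ⟩ := exists_isLUB hW g
  refine ⟨β, hβ.1 ⟨0, hg0⟩, mem_iInter.2 fun n => ?_⟩
  refine hc n (fun l => g (Nat.pair n l + 1)) ?_ ?_ β ⟨?_, ?_⟩
  · intro l l' hl
    have h1 : Nat.pair n l < Nat.pair n l' := Nat.pair_lt_pair_right n hl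
    have h2 : Nat.pair n l + 1 < Nat.pair n l' + 1 := by omega
    exact hgm h2
  · intro l
    simp only [hg, Nat.unpair_pair]
    exact hmem _ _
  · rintro _ ⟨l, rfl⟩
    exact hβ.1 ⟨Nat.pair n l + 1, rfl⟩
  · intro c hc'
    refine hβ.2 ?_
    rintro _ ⟨k, rfl⟩
    have h1 : g k ≤ g (Nat.pair n k + 1) := by
      refine hgm.monotone ?_
      have := Nat.right_le_pair n k
      omega
    exact h1.trans (hc' ⟨k, rfl⟩)

theorem OCl.iInter {ι : Sort*} {T : ι → Set W} (hc : ∀ n, OCl (T n)) : OCl (⋂ n, T n) := by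
  intro f hf hfT β hβ
  refine mem_iInter.2 fun n => hc n f hf (fun k => mem_iInter.1 (hfT k) n) β hβ

theorem OCl.inter {T T' : Set W} (h : OCl T) (h' : OCl T') : OCl (T ∩ T') :=
  fun f hf hfT β hβ => ⟨h f hf (fun k => (hfT k).1) β hβ, h' f hf (fun k => (hfT k).2) β hβ⟩

theorem Unb.iInter_countable [WellFoundedLT W] (hW : CB W) {ι : Type*} [Countable ι]
    {T : ι → Set W} (h : ∀ n, Unb (T n)) (hc : ∀ n, OCl (T n)) : Unb (⋂ n, T n) := by
  cases isEmpty_or_nonempty ι
  · intro β0
    exact ⟨β0, le_rfl, by simp⟩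
  · obtain ⟨e, he⟩ := exists_surjective_nat ι
    refine (Unb.iInter hW (T := fun n => T (e n)) (fun n => h _) (fun n => hc _)).mono ?_
    intro β hβ
    refine mem_iInter.2 fun i => ?_
    obtain ⟨n, rfl⟩ := he i
    exact mem_iInter.1 hβ n

end Club

/-- the data used by the star operation -/
structure Curves (W P : Type) [LinearOrder W] [TopologicalSpace P] where
  /-- the curves -/
  b : W → unitInterval → P
  /-- their limits -/
  j : unitInterval → P
  b1 : ∀ x, ∀ f : ℕ → W, StrictMono f → ∀ β, IsLUB (range f) β →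
    Tendsto (fun k => b (f k) x) atTop (𝓝 (b β x))
  b2 : ∀ x, ∃ β0, ∀ β, β0 ≤ β → ContinuousAt (b β) x
  b3 : ∀ x, ∀ O ∈ 𝓝 (j x), ∃ β0, ∀ β, β0 ≤ β → b β x ∈ O

section Star

variable {W P : Type} [LinearOrder W]

/-- prepend a point to a sequence -/
def cons (b : P) (p : ℕ → P) : ℕ → P
  | 0 => b
  | n + 1 => p n

@[simp] theorem cons_zero (b : P) (p : ℕ → P) : cons b p 0 = b := rfl

@[simp] theorem cons_succ (b : P) (p : ℕ → P) (n : ℕ) : cons b p (n + 1) = p n := rfl

@[simp] theorem tail_cons (b : P) (p : ℕ → P) : tail (cons b p) = p := rfl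

@[simp] theorem cons_tail (p : ℕ → P) : cons (p 0) (tail p) = p := by
  funext n
  cases n <;> rfl

/-- the section of `F` at `b` -/
def sec (F : Set (ℕ → P)) (b : P) : Set (ℕ → P) := {p | cons b p ∈ F}

theorem mem_sec {F : Set (ℕ → P)} {b : P} {p : ℕ → P} : p ∈ sec F b ↔ cons b p ∈ F := Iff.rfl

variable [TopologicalSpace P]

theorem continuous_cons : Continuous (fun q : P × (ℕ → P) => cons q.1 q.2) := by
  refine continuous_pi fun n => ?_
  cases n with
  | zero => exact continuous_fst
  | succ n => exact (continuous_apply n).comp continuous_snd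

theorem continuous_cons_right (b : P) : Continuous (cons b) :=
  continuous_cons.comp (Continuous.prodMk_right b)

theorem isClosed_sec {F : Set (ℕ → P)} (hF : IsClosed F) (b : P) : IsClosed (sec F b) :=
  hF.preimage (continuous_cons_right b)

/-- upper semicontinuous convergence of sets -/
def Conv (F : ℕ → Set (ℕ → P)) (G : Set (ℕ → P)) : Prop :=
  ∀ O : Set (ℕ → P), IsOpen O → G ⊆ O → ∀ᶠ n in atTop, F n ⊆ O

theorem Conv.const (F : Set (ℕ → P)) : Conv (fun _ => F) F := fun _ _ h =>
  Eventually.of_forall fun _ => h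

theorem Conv.sec [CompactSpace P] [T2Space P] {F : ℕ → Set (ℕ → P)} {G : Set (ℕ → P)}
    (h : Conv F G) (hG : IsClosed G)
    {b : ℕ → P} {b0 : P} (hb : Tendsto b atTop (𝓝 b0)) :
    Conv (fun n => sec (F n) (b n)) (Helper63.sec G b0) := by
  intro O hO hGO
  -- the set of `b'` with `sec G b' ⊆ O` is open
  have hN : IsOpen {b' : P | Helper63.sec G b' ⊆ O} := by
    have hcl : IsClosed ({q : P × (ℕ → P) | cons q.1 q.2 ∈ G} ∩ {q | q.2 ∈ Oᶜ}) :=
      (hG.preimage continuous_cons).inter (hO.isClosed_compl.preimage continuous_snd)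
    have := isClosedMap_fst_of_compactSpace _ hcl
    rw [← isOpen_compl_iff] at this
    convert this using 1
    ext b'
    simp only [mem_ofPred_eq, mem_compl_iff, mem_image, mem_inter_iff, Prod.exists, not_exists,
      not_and]
    constructor
    · rintro h x y ⟨h1, h2⟩ rfl
      exact h2 (h h1)
    · intro h y hy
      by_contra hyO
      exact h b' y ⟨hy, hyO⟩ rfl
  obtain ⟨N', hN', hN'c, hN'N⟩ := exists_mem_nhds_isClosed_subset (hN.mem_nhds hGO)
  have hO' : IsOpen {q : ℕ → P | q 0 ∈ N' → tail q ∈ O} := by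
    have : IsClosed ({q : ℕ → P | q 0 ∈ N'} ∩ {q | tail q ∈ Oᶜ}) :=
      (hN'c.preimage (continuous_apply 0)).inter (hO.isClosed_compl.preimage continuous_tail)
    rw [← isOpen_compl_iff] at this
    convert this using 1
    ext q
    simp
  have hGO' : G ⊆ {q : ℕ → P | q 0 ∈ N' → tail q ∈ O} := by
    intro q hq hq0
    refine hN'N hq0 ?_
    rw [mem_sec, cons_tail]
    exact hq
  filter_upwards [h _ hO' hGO', hb hN'] with n hn hbn
  intro p hp
  have := hn hp
  simp only [mem_ofPred_eq, cons_zero, tail_cons] at this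
  exact this hbn

variable (C : Curves W P)

/-- the iterated club many predicate -/
def R : ℕ → Set (ℕ → P) → Q → Prop
  | 0, F, _ => F.Nonempty
  | m + 1, F, x => Unb {β | R m (sec F (C.b β (x 0))) (tail x)}

theorem R_mono (m : ℕ) : ∀ {F G : Set (ℕ → P)} {x : Q}, F ⊆ G → R C m F x → R C m G x := by
  induction m with
  | zero => intro F G x h h'; exact h'.mono h
  | succ m ih =>
    intro F G x h h'
    refine Unb.mono h' fun β hβ => ih (fun p hp => h hp) hβ

theorem R_of_succ [Nonempty W] (m : ℕ) : ∀ {F : Set (ℕ → P)} {x : Q}, R C (m + 1) F x → R C m F x := by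
  induction m with
  | zero =>
    intro F x h
    obtain ⟨β, -, p, hp⟩ := h (Classical.arbitrary W)
    exact ⟨_, hp⟩
  | succ m ih =>
    intro F x h
    exact Unb.mono h fun β hβ => ih hβ

theorem R_of_le [Nonempty W] {m m' : ℕ} (hm : m ≤ m') {F : Set (ℕ → P)} {x : Q}
    (h : R C m' F x) : R C m F x := by
  induction hm with
  | refl => exact h
  | step _ ih => exact ih (R_of_succ C _ h)

theorem R_union (m : ℕ) : ∀ {F G : Set (ℕ → P)} {x : Q},
    R C m (F ∪ G) x → R C m F x ∨ R C m G x := by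
  induction m with
  | zero =>
    rintro F G x ⟨p, hp | hp⟩
    · exact Or.inl ⟨p, hp⟩
    · exact Or.inr ⟨p, hp⟩
  | succ m ih =>
    intro F G x h
    by_contra hcon
    rw [not_or] at hcon
    obtain ⟨h1, h2⟩ := hcon
    simp only [R, Unb, not_forall, not_exists, not_and] at h1 h2
    obtain ⟨β1, h1⟩ := h1
    obtain ⟨β2, h2⟩ := h2
    obtain ⟨β, hβ, hR⟩ := h (max β1 β2)
    rcases ih (F := sec F (C.b β (x 0))) (G := sec G (C.b β (x 0))) hR with h | h
    · exact h1 β ((le_max_left _ _).trans hβ) h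
    · exact h2 β ((le_max_right _ _).trans hβ) h

variable [WellFoundedLT W] [CompactSpace P] [T2Space P]

/-- the key limit lemma -/
theorem R_lim (hW : CB W) (m : ℕ) : ∀ {F : ℕ → Set (ℕ → P)} {G : Set (ℕ → P)} {xs : ℕ → Q} {x : Q},
    (∀ n, IsClosed (F n)) → IsClosed G → Conv F G → Tendsto xs atTop (𝓝 x) →
    (∀ n, R C m (F n) (xs n)) → R C m G x := by
  induction m with
  | zero =>
    intro F G xs x _ _ hconv _ h
    by_contra hG
    have hG' : G ⊆ ∅ := by
      simpa [R, not_nonempty_iff_eq_empty] using hG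
    obtain ⟨n, hn⟩ := (hconv ∅ isOpen_empty hG').exists
    obtain ⟨p, hp⟩ := h n
    exact hn hp
  | succ m ih =>
    intro F G xs x hF hG hconv hxs h
    have hcl : ∀ n, OCl {β | R C m (sec (F n) (C.b β (xs n 0))) (tail (xs n))} := by
      intro n f hf hfT β hβ
      refine ih (F := fun k => sec (F n) (C.b (f k) (xs n 0))) (xs := fun _ => tail (xs n))
        (fun k => isClosed_sec (hF n) _) (isClosed_sec (hF n) _) ?_ tendsto_const_nhds hfT
      exact (Conv.const (F n)).sec (hF n) (C.b1 _ f hf β hβ)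
    have hunb := Unb.iInter hW (fun n => h n) hcl
    intro β0
    obtain ⟨β1, hβ1⟩ := C.b2 (x 0)
    obtain ⟨β, hβ, hmem⟩ := hunb (max β0 β1)
    refine ⟨β, (le_max_left _ _).trans hβ, ?_⟩
    refine ih (F := fun n => sec (F n) (C.b β (xs n 0))) (xs := fun n => tail (xs n))
      (fun n => isClosed_sec (hF n) _) (isClosed_sec hG _) ?_ ?_ (fun n => mem_iInter.1 hmem n)
    · refine hconv.sec hG ?_
      exact (hβ1 β ((le_max_right _ _).trans hβ)).tendsto.comp
        ((continuous_apply 0).continuousAt.tendsto.comp hxs)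
    · exact continuous_tail.continuousAt.tendsto.comp hxs

theorem OCl_R (hW : CB W) (m : ℕ) {F : Set (ℕ → P)} (hF : IsClosed F) (x0 : unitInterval) (x : Q) :
    OCl {β | R C m (sec F (C.b β x0)) x} := by
  intro f hf hfT β hβ
  exact R_lim C hW m (F := fun k => sec F (C.b (f k) x0)) (xs := fun _ => x)
    (fun k => isClosed_sec hF _) (isClosed_sec hF _)
    ((Conv.const F).sec hF (C.b1 _ f hf β hβ)) tendsto_const_nhds hfT

/-- the star of a set -/
def star (F : Set (ℕ → P)) : Set Q := {x | ∀ m, R C m F x}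

theorem star_mono {F G : Set (ℕ → P)} (h : F ⊆ G) : star C F ⊆ star C G :=
  fun _ hx m => R_mono C m h (hx m)

theorem isClosed_star (hW : CB W) {F : Set (ℕ → P)} (hF : IsClosed F) : IsClosed (star C F) := by
  refine IsSeqClosed.isClosed ?_
  intro xs x hxs hx m
  exact R_lim C hW m (F := fun _ => F) (fun _ => hF) hF (Conv.const F) hx fun n => hxs n m

theorem star_union [Nonempty W] {F G : Set (ℕ → P)} : star C (F ∪ G) = star C F ∪ star C G := by
  refine Subset.antisymm ?_ (union_subset (star_mono C subset_union_left)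
    (star_mono C subset_union_right))
  intro x hx
  by_contra hcon
  simp only [mem_union, not_or, star, mem_ofPred_eq, not_forall] at hcon
  obtain ⟨⟨m1, h1⟩, ⟨m2, h2⟩⟩ := hcon
  rcases R_union C (max m1 m2) (hx _) with h | h
  · exact h1 (R_of_le C (le_max_left _ _) h)
  · exact h2 (R_of_le C (le_max_right _ _) h)

theorem star_univ [Nonempty P] [Nonempty W] : star C (univ : Set (ℕ → P)) = univ := by
  refine eq_univ_of_forall fun x m => ?_
  induction m generalizing x with
  | zero => exact univ_nonempty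
  | succ m ih =>
    intro β0
    exact ⟨β0, le_rfl, ih _⟩

/-- if `x ∈ star F`, then for unboundedly many `β`, `tail x` is in the star of the section -/
theorem unb_of_mem_star (hW : CB W) {F G : Set (ℕ → P)} (hF : IsClosed F) (hG : IsClosed G) {x : Q}
    (h : x ∈ star C F) (h' : x ∈ star C G) :
    Unb {β | tail x ∈ star C (sec F (C.b β (x 0))) ∧ tail x ∈ star C (sec G (C.b β (x 0)))} := by
  have h1 := Unb.iInter_countable hW (ι := ℕ ⊕ ℕ)
    (T := Sum.elim (fun m => {β | R C m (sec F (C.b β (x 0))) (tail x)})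
      (fun m => {β | R C m (sec G (C.b β (x 0))) (tail x)})) (by
        rintro (m | m)
        · exact h (m + 1)
        · exact h' (m + 1)) (by
        rintro (m | m)
        · exact OCl_R C hW m hF _ _
        · exact OCl_R C hW m hG _ _)
  refine h1.mono fun β hβ => ⟨fun m => ?_, fun m => ?_⟩
  · exact mem_iInter.1 hβ (Sum.inl m)
  · exact mem_iInter.1 hβ (Sum.inr m)

theorem nonempty_inter (hW : CB W) {F G : Set (ℕ → P)} (hF : IsClosed F) (hG : IsClosed G) {x : Q}
    (h : x ∈ star C F) (h' : x ∈ star C G) [Nonempty W] : (F ∩ G).Nonempty := by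
  -- states of the construction
  let St : Type := {s : Set (ℕ → P) × Set (ℕ → P) × Q //
    IsClosed s.1 ∧ IsClosed s.2.1 ∧ s.2.2 ∈ star C s.1 ∧ s.2.2 ∈ star C s.2.1}
  have hstep : ∀ s : St, ∃ b : P, ∃ s' : St, s'.1 = (sec s.1.1 b, sec s.1.2.1 b, tail s.1.2.2) := by
    rintro ⟨⟨F, G, x⟩, hF, hG, h, h'⟩
    obtain ⟨β, -, h1, h2⟩ := unb_of_mem_star C hW hF hG h h' (Classical.arbitrary W)
    exact ⟨C.b β (x 0), ⟨(_, _, _), isClosed_sec hF _, isClosed_sec hG _, h1, h2⟩, rfl⟩
  choose bb ss hss using hstep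
  let S : ℕ → St := fun n => Nat.rec ⟨(F, G, x), hF, hG, h, h'⟩ (fun _ s => ss s) n
  have hS : ∀ n, S (n + 1) = ss (S n) := fun n => rfl
  let q : ℕ → P := fun n => bb (S n)
  -- points of `F` agreeing with `q` on the first `n` coordinates
  have key : ∀ n (p : ℕ → P), (p ∈ (S n).1.1 → (fun i => if i < n then q i else p (i - n)) ∈ F) ∧
      (p ∈ (S n).1.2.1 → (fun i => if i < n then q i else p (i - n)) ∈ G) := by
    intro n
    induction n with
    | zero =>
      intro p
      simp only [Nat.not_lt_zero, if_false, Nat.sub_zero]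
      exact ⟨fun h => h, fun h => h⟩
    | succ n ih =>
      intro p
      have e : (fun i => if i < n + 1 then q i else p (i - (n + 1))) =
          fun i => if i < n then q i else cons (q n) p (i - n) := by
        funext i
        rcases lt_trichotomy i n with hi | rfl | hi
        · simp [hi, show i < n + 1 by omega]
        · simp
        · obtain ⟨k, rfl⟩ : ∃ k, i = n + k + 1 := ⟨i - n - 1, by omega⟩
          have h1 : ¬ (n + k + 1 < n + 1) := by omega
          have h2 : ¬ (n + k + 1 < n) := by omega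
          have h3 : n + k + 1 - n = k + 1 := by omega
          have h4 : n + k + 1 - (n + 1) = k := by omega
          simp [h1, h2, h3, h4]
      rw [e]
      have h1 : (S (n + 1)).1 = (sec (S n).1.1 (q n), sec (S n).1.2.1 (q n), tail (S n).1.2.2) :=
        hss (S n)
      rw [h1]
      exact ⟨fun h => (ih (cons (q n) p)).1 h, fun h => (ih (cons (q n) p)).2 h⟩
  have hlim : ∀ (p : ℕ → ℕ → P),
      Tendsto (fun n => (fun i => if i < n then q i else p n (i - n))) atTop (𝓝 q) := by
    intro p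
    rw [tendsto_pi_nhds]
    intro i
    refine tendsto_const_nhds.congr' ?_
    filter_upwards [eventually_gt_atTop i] with n hn
    simp [hn]
  have hne : ∀ n, ∃ p p' : ℕ → P, p ∈ (S n).1.1 ∧ p' ∈ (S n).1.2.1 := by
    intro n
    obtain ⟨p, hp⟩ := (S n).2.2.2.1 0
    obtain ⟨p', hp'⟩ := (S n).2.2.2.2 0
    exact ⟨p, p', hp, hp'⟩
  choose p p' hp hp' using hne
  refine ⟨q, ?_, ?_⟩
  · exact hF.mem_of_tendsto (hlim p) (Eventually.of_forall fun n => (key n (p n)).1 (hp n))
  · exact hG.mem_of_tendsto (hlim p') (Eventually.of_forall fun n => (key n (p' n)).2 (hp' n))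

theorem star_inter [Nonempty W] (hW : CB W) {F G : Set (ℕ → P)} (hF : IsClosed F)
    (hG : IsClosed G) : star C F ∩ star C G ⊆ star C (F ∩ G) := by
  rintro x ⟨hx, hx'⟩ m
  induction m generalizing F G x with
  | zero => exact nonempty_inter C hW hF hG hx hx'
  | succ m ih =>
    refine (unb_of_mem_star C hW hF hG hx hx').mono fun β hβ => ?_
    exact ih (isClosed_sec hF _) (isClosed_sec hG _) hβ.1 hβ.2

/-- if `x ∈ star F` then some point of `F` starts with `j (x 0)` -/
theorem exists_of_mem_star {F : Set (ℕ → P)} (hF : IsClosed F) {x : Q} (h : x ∈ star C F) :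
    ∃ p, cons (C.j (x 0)) p ∈ F := by
  have hcl : IsClosed ((fun q : ℕ → P => q 0) '' F) :=
    (hF.isCompact.image (continuous_apply 0)).isClosed
  have hj : C.j (x 0) ∈ (fun q : ℕ → P => q 0) '' F := by
    by_contra hcon
    obtain ⟨β0, hβ0⟩ := C.b3 (x 0) _ (hcl.isOpen_compl.mem_nhds hcon)
    obtain ⟨β, hβ, p, hp⟩ := h 1 β0
    exact hβ0 β hβ ⟨_, hp, rfl⟩
  obtain ⟨q, hq, hq0⟩ := hj
  refine ⟨tail q, ?_⟩
  have hq0' : C.j (x 0) = q 0 := hq0.symm
  rw [hq0', cons_tail]
  exact hq

/-- a common section for all points of a fibre of `star F` -/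
theorem exists_section [Nonempty W] (hW : CB W) {F : Set (ℕ → P)} (hF : IsClosed F)
    (x0 : unitInterval) : ∃ β, ∀ x ∈ star C F, x 0 = x0 → tail x ∈ star C (sec F (C.b β x0)) := by
  obtain ⟨D, hDZ, hDc, hD⟩ := TopologicalSpace.IsSeparable.exists_countable_dense_subset
    (TopologicalSpace.IsSeparable.of_separableSpace {x : Q | x ∈ star C F ∧ x 0 = x0})
  have hcount : Countable D := hDc
  have hunb := Unb.iInter_countable hW (ι := D × ℕ)
    (T := fun d => {β | R C d.2 (sec F (C.b β x0)) (tail d.1.1)}) (by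
      rintro ⟨⟨d, hd⟩, m⟩
      have hd' := hDZ hd
      have := hd'.1 (m + 1)
      simp only [R] at this
      rw [hd'.2] at this
      exact this) (by
      rintro ⟨⟨d, hd⟩, m⟩
      exact OCl_R C hW m hF _ _)
  obtain ⟨β, -, hβ⟩ := hunb (Classical.arbitrary W)
  refine ⟨β, fun x hx hx0 => ?_⟩
  have hcl : IsClosed (tail ⁻¹' (star C (sec F (C.b β x0)))) :=
    (isClosed_star C hW (isClosed_sec hF _)).preimage continuous_tail
  have hsub : D ⊆ tail ⁻¹' (star C (sec F (C.b β x0))) := by
    intro d hd m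
    exact mem_iInter.1 hβ (⟨d, hd⟩, m)
  exact closure_minimal hsub hcl (hD ⟨hx, hx0⟩)

end Star

end Pool.Agent.Helper63
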